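import Pool.Agent.Lib.RAT.Defs

/-!
# RAT, row B: periodic bumps exist
-/

set_option autoImplicit false

open MeasureTheory

namespace Pool.Agent.RAT.Bx

/-- the unnormalised bump -/
noncomputable def h (d : ℝ) (t : ℝ) : ℝ :=
  expNegInvGlue (Real.cos (2 * Real.pi * t) - Real.cos (2 * Real.pi * d))

theorem h_smooth (d : ℝ) : ContDiff ℝ 1 (h d) := by
  have h1 : ContDiff ℝ 1 (fun t : ℝ => Real.cos (2 * Real.pi * t) - Real.cos (2 * Real.pi * d)) :=
    (Real.contDiff_cos.comp (contDiff_const.mul contDiff_id)).sub contDiff_const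
  exact (expNegInvGlue.contDiff (n := 1)).comp h1

theorem h_nonneg (d t : ℝ) : 0 ≤ h d t := expNegInvGlue.nonneg _

theorem h_per (d t : ℝ) : h d (t + 1) = h d t := by
  unfold h
  rw [show 2 * Real.pi * (t + 1) = 2 * Real.pi * t + 2 * Real.pi by ring, Real.cos_add_two_pi]

theorem h_supp (d t : ℝ) (hd : 0 < d) (hd2 : d ≤ 1 / 4) (ht : h d t ≠ 0) :
    ∃ m : ℤ, |t - m| < d := by
  refine ⟨round t, ?_⟩
  have h1 : 0 < Real.cos (2 * Real.pi * t) - Real.cos (2 * Real.pi * d) := by
    by_contra hc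
    exact ht (expNegInvGlue.zero_iff_nonpos.2 (not_lt.1 hc))
  have h2 : Real.cos (2 * Real.pi * t) = Real.cos (2 * Real.pi * |t - round t|) := by
    have h3 : Real.cos (2 * Real.pi * |t - round t|) = Real.cos (2 * Real.pi * (t - round t)) := by
      rw [← Real.cos_abs (2 * Real.pi * (t - round t)), abs_mul,
        abs_of_pos (by positivity : (0 : ℝ) < 2 * Real.pi)]
    rw [h3, show 2 * Real.pi * (t - round t) = 2 * Real.pi * t - (round t : ℤ) * (2 * Real.pi) by
      ring, Real.cos_sub_int_mul_two_pi]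
  have h4 : |t - round t| ≤ 1 / 2 := abs_sub_round t
  have hpi := Real.pi_pos
  by_contra hc
  push Not at hc
  have h5 : Real.cos (2 * Real.pi * |t - round t|) ≤ Real.cos (2 * Real.pi * d) := by
    apply Real.cos_le_cos_of_nonneg_of_le_pi
    · positivity
    · nlinarith
    · nlinarith
  rw [h2] at h1
  linarith

theorem h_int (d : ℝ) (hd : 0 < d) (hd2 : d ≤ 1 / 4) : 0 < ∫ t in (0 : ℝ)..1, h d t := by
  refine intervalIntegral.integral_pos one_pos (h_smooth d).continuous.continuousOn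
    (fun x _ => h_nonneg d x) ⟨0, by simp, ?_⟩
  unfold h
  apply expNegInvGlue.pos_of_pos
  have hpi := Real.pi_pos
  rw [mul_zero, Real.cos_zero]
  have : Real.cos (2 * Real.pi * d) < Real.cos 0 := by
    apply Real.cos_lt_cos_of_nonneg_of_le_pi le_rfl
    · nlinarith
    · positivity
  rw [Real.cos_zero] at this
  linarith

end Pool.Agent.RAT.Bx

namespace Pool.Agent.RAT

theorem row_b : RowB := by
  intro δ hδ
  set d : ℝ := min δ (1 / 4) with hd
  have hd0 : 0 < d := lt_min hδ (by norm_num)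
  have hd1 : d ≤ 1 / 4 := min_le_right _ _
  have hpos := Bx.h_int d hd0 hd1
  refine ⟨fun t => (∫ t in (0 : ℝ)..1, Bx.h d t)⁻¹ * Bx.h d t, ?_, ?_, ?_, ?_, ?_⟩
  · exact contDiff_const.mul (Bx.h_smooth d)
  · intro t
    exact mul_nonneg (inv_nonneg.2 hpos.le) (Bx.h_nonneg d t)
  · intro t
    simp only [Bx.h_per]
  · rw [intervalIntegral.integral_const_mul]
    exact inv_mul_cancel₀ hpos.ne'
  · intro t ht
    obtain ⟨m, hm⟩ := Bx.h_supp d t hd0 hd1 (right_ne_zero_of_mul ht)
    exact ⟨m, hm.trans_le (min_le_left _ _)⟩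

end Pool.Agent.RAT
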