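import Pool.Agent.Lib.RAT.Defs

/-!
# RAT, row C: the classes are rational, up to the constant (helper43)
-/

set_option autoImplicit false

open scoped ComplexConjugate Matrix Topology
open Complex MeasureTheory Pool.Agent.CMN Pool.Agent.HCM

namespace Pool.Agent.RAT

noncomputable section

namespace Cx

/-- multilinear expansion of a determinant whose rows are linear combinations -/
theorem det_expand {T S : Type} [Fintype T] [DecidableEq T] [Fintype S]
    (P : T → S → ℂ) (W : S → T → ℂ) :
    Matrix.det (Matrix.of fun a => ∑ s, P a s • W s) =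
      ∑ s : T → S, (∏ a, P a (s a)) * Matrix.det (Matrix.of fun a => W (s a)) := by
  classical
  have h := (Matrix.detRowAlternating (R := ℂ) (n := T)).toMultilinearMap.map_sum
    (fun a (s : S) => P a s • W s)
  have h2 : ∀ s : T → S,
      (Matrix.detRowAlternating (R := ℂ) (n := T)).toMultilinearMap
        (fun a => P a (s a) • W (s a)) =
      (∏ a, P a (s a)) * Matrix.det (Matrix.of fun a => W (s a)) := by
    intro s
    rw [MultilinearMap.map_smul_univ]
    rfl
  calc Matrix.det (Matrix.of fun a => ∑ s, P a s • W s)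
      = (Matrix.detRowAlternating (R := ℂ) (n := T)).toMultilinearMap
          (fun a => ∑ s, P a s • W s) := rfl
    _ = _ := by
        rw [h]
        exact Finset.sum_congr rfl fun s _ => h2 s

/-- averaging over permutations -/
theorem average {T S : Type} [Fintype T] [DecidableEq T] [Fintype S]
    (P : T → S → ℂ) (Q : (T → S) → ℂ)
    (hQ : ∀ (s : T → S) (σ : Equiv.Perm T), Q (s ∘ σ) = ((Equiv.Perm.sign σ : ℤ) : ℂ) * Q s) :
    ∑ s : T → S, (∏ a, P a (s a)) * Q s =
      ∑ s : T → S, (Q s / (Fintype.card (Equiv.Perm T) : ℂ)) *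
        Matrix.det (Matrix.of fun a b => P a (s b)) := by
  classical
  have hN : (Fintype.card (Equiv.Perm T) : ℂ) ≠ 0 := by
    exact_mod_cast Fintype.card_ne_zero
  have h1 : ∀ σ : Equiv.Perm T, ∑ s : T → S, (∏ a, P a (s a)) * Q s =
      ∑ s : T → S, (∏ a, P a (s (σ a))) * (((Equiv.Perm.sign σ : ℤ) : ℂ) * Q s) := by
    intro σ
    rw [← (Equiv.arrowCongr σ.symm (Equiv.refl S)).sum_comp]
    refine Finset.sum_congr rfl fun s _ => ?_
    have : (Equiv.arrowCongr σ.symm (Equiv.refl S)) s = s ∘ σ := by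
      ext a
      simp [Equiv.arrowCongr]
    rw [this, hQ]
    rfl
  have h2 : (Fintype.card (Equiv.Perm T) : ℂ) * ∑ s : T → S, (∏ a, P a (s a)) * Q s =
      ∑ s : T → S, Q s * Matrix.det (Matrix.of fun a b => P a (s b)) := by
    calc (Fintype.card (Equiv.Perm T) : ℂ) * ∑ s : T → S, (∏ a, P a (s a)) * Q s
        = ∑ σ : Equiv.Perm T, ∑ s : T → S, (∏ a, P a (s a)) * Q s := by
          rw [Finset.sum_const, Finset.card_univ, nsmul_eq_mul]
      _ = ∑ σ : Equiv.Perm T,
            ∑ s : T → S, (∏ a, P a (s (σ a))) * (((Equiv.Perm.sign σ : ℤ) : ℂ) * Q s) :=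
          Finset.sum_congr rfl fun σ _ => h1 σ
      _ = ∑ s : T → S, ∑ σ : Equiv.Perm T,
            (∏ a, P a (s (σ a))) * (((Equiv.Perm.sign σ : ℤ) : ℂ) * Q s) := Finset.sum_comm
      _ = _ := by
          refine Finset.sum_congr rfl fun s _ => ?_
          rw [← Matrix.det_transpose, Matrix.det_apply', Finset.mul_sum]
          refine Finset.sum_congr rfl fun σ _ => ?_
          simp only [Matrix.transpose_apply, Matrix.of_apply]
          ring
  have h3 : ∑ s : T → S, (∏ a, P a (s a)) * Q s =
      (∑ s : T → S, Q s * Matrix.det (Matrix.of fun a b => P a (s b))) /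
        (Fintype.card (Equiv.Perm T) : ℂ) := by
    rw [← h2]
    field_simp
  rw [h3, Finset.sum_div]
  refine Finset.sum_congr rfl fun s _ => ?_
  ring

/-- continuity of the product with a compactly supported function -/
theorem cont_mul {n : ℕ} {B : Set (Fin n → ℂ)} (hB : IsOpen B) {χ g : (Fin n → ℂ) → ℝ}
    (hχ : Continuous χ) (hs : tsupport χ ⊆ B) (hg : ContinuousOn g B) :
    Continuous fun y => χ y * g y := by
  rw [continuous_iff_continuousAt]
  intro y
  by_cases hy : y ∈ B
  · exact hχ.continuousAt.mul (hg.continuousAt (hB.mem_nhds hy))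
  · have h0 : y ∉ tsupport χ := fun h => hy (hs h)
    have h1 : χ =ᶠ[𝓝 y] 0 := notMem_tsupport_iff_eventuallyEq.mp h0
    have h2 : (fun y => χ y * g y) =ᶠ[𝓝 y] fun _ => 0 := by
      filter_upwards [h1] with z hz
      rw [hz]
      simp
    exact (continuousAt_const (y := (0 : ℝ))).congr h2.symm

/-- the real Jacobian determinant is continuous -/
theorem cont_Jr {n : ℕ} {B : Set (Fin n → ℂ)} (hB : IsOpen B)
    {Y : Two n → (Fin n → ℂ) → ℝ} (hY : ∀ a, ContDiffOn ℝ 2 (Y a) B) :
    ContinuousOn (Jr Y) B := by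
  have h : ∀ a b, ContinuousOn (fun y => fderiv ℝ (Y a) y (bas b)) B := by
    intro a b
    have h1 : ContinuousOn (fun y => fderiv ℝ (Y a) y) B :=
      (hY a).continuousOn_fderiv_of_isOpen hB (by norm_num)
    exact h1.clm_apply continuousOn_const
  unfold Jr
  simp_rw [Matrix.det_apply']
  refine continuousOn_finsetSum _ fun σ _ => ?_
  refine continuousOn_const.mul (continuousOn_finsetProd _ fun a _ => ?_)
  exact h _ _

theorem ball_open {n : ℕ} (k : Fin (n + 1) → ℝ) : IsOpen (ball k) := by
  have : Continuous fun y : Fin n → ℂ =>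
      ∑ j : Fin n, k j.castSucc * ‖y j‖ ^ 2 + k (Fin.last n) := by
    fun_prop
  exact isOpen_lt this continuous_const

/-- the Jacobian is alternating -/
theorem Jr_perm {n : ℕ} (Y : Two n → (Fin n → ℂ) → ℝ) (σ : Equiv.Perm (Two n))
    (y : Fin n → ℂ) :
    Jr (fun a => Y (σ a)) y = ((Equiv.Perm.sign σ : ℤ) : ℝ) * Jr Y y := by
  unfold Jr
  have := Matrix.det_permute σ (Matrix.of fun a b => fderiv ℝ (Y a) y (bas b))
  simpa [Matrix.submatrix] using this

end Cx

open Cx in
theorem row_c (hM : RowM) (h1 : RowC1) (h2 : RowC2) : RowC := by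
  classical
  intro n ι hι K _ _ Φ k Γ χ f ℓ hpd hco hwt hcm hf
  letI : Fintype ι := Fintype.ofFinite ι
  choose J hJ b X m hX hXm hp using fun i =>
    h1 (K i) n k Γ (Φ i) (f i) (ℓ i) hpd (hcm i) (hf i)
  letI : ∀ i, Fintype (J i) := hJ
  -- the loops
  let e : (Σ i, J i) → ∀ i, K i := fun s => Pi.single s.1 (b s.1 s.2)
  let P : Idx K → (Σ i, J i) → ℂ := fun q s => q.2 (e s q.1)
  have hP : ∀ (q : Idx K) (y : Fin n → ℂ), y ∈ ball k →
      pull (Φ q.1) (f q.1) q.2 y = ∑ s : (Σ i, J i), P q s • Wi (X s.1 s.2) y := by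
    intro q y hy
    rw [hp q.1 q.2 y hy, Fintype.sum_sigma]
    rw [Finset.sum_eq_single q.1]
    · refine Finset.sum_congr rfl fun j _ => ?_
      simp [P, e]
    · intro i _ hi
      refine Finset.sum_eq_zero fun j _ => ?_
      have : (Pi.single i (b i j) : ∀ i, K i) q.1 = 0 := Pi.single_eq_of_ne (Ne.symm hi) _
      simp [P, e, this]
    · intro h
      exact absurd (Finset.mem_univ _) h
  -- the integrals of the Jacobians
  let Y : (Two n → Σ i, J i) → Two n → (Fin n → ℂ) → ℝ := fun s a => X (s a).1 (s a).2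
  have hq : ∀ s : Two n → Σ i, J i, ∃ q : ℚ, ∫ y, χ y * Jr (Y s) y = q := by
    intro s
    exact hM n k Γ χ (Y s) (fun a => m (s a).1 (s a).2) hpd hco hwt
      (fun a => hX (s a).1 (s a).2) (fun a => hXm (s a).1 (s a).2)
  let Q : (Two n → Σ i, J i) → ℂ := fun s => ((∫ y, χ y * Jr (Y s) y : ℝ) : ℂ)
  have hQ : ∀ (s : Two n → Σ i, J i) (σ : Equiv.Perm (Two n)),
      Q (s ∘ σ) = ((Equiv.Perm.sign σ : ℤ) : ℂ) * Q s := by
    intro s σ
    have : ∀ y, χ y * Jr (Y (s ∘ σ)) y =
        ((Equiv.Perm.sign σ : ℤ) : ℝ) * (χ y * Jr (Y s) y) := by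
      intro y
      have := Jr_perm (Y s) σ y
      have h' : Y (s ∘ σ) = fun a => Y s (σ a) := rfl
      rw [h', this]
      ring
    show ((∫ y, χ y * Jr (Y (s ∘ σ)) y : ℝ) : ℂ) = _
    rw [integral_congr_ae (Filter.Eventually.of_forall this), integral_const_mul]
    push_cast
    rfl
  have hB := ball_open k
  have hsupp : tsupport χ ⊆ ball k := hwt.supp
  have hcont : ∀ s, Continuous fun y => χ y * Jr (Y s) y := fun s =>
    cont_mul hB hwt.cont hsupp (cont_Jr hB fun a => hX (s a).1 (s a).2)
  have hint : ∀ s, Integrable fun y => χ y * Jr (Y s) y := fun s =>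
    (hcont s).integrable_of_hasCompactSupport hwt.comp.mul_right
  -- the formula for the classes
  have hcls : ∀ t : Two n → Idx K, ((-2 * I) ^ n • cls Φ χ f) t =
      ∑ s : Two n → Σ i, J i, (∏ a, P (t a) (s a)) * Q s := by
    intro t
    have hpt : ∀ y, (χ y : ℂ) *
        Matrix.det (Matrix.of fun a => pull (Φ (t a).1) (f (t a).1) (t a).2 y) =
        ∑ s : Two n → Σ i, J i, ((∏ a, P (t a) (s a)) * (I / 2) ^ n) *
          ((χ y * Jr (Y s) y : ℝ) : ℂ) := by
      intro y
      by_cases hy : y ∈ ball k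
      · have : (Matrix.of fun a => pull (Φ (t a).1) (f (t a).1) (t a).2 y) =
            Matrix.of fun a => ∑ s : (Σ i, J i), P (t a) s • Wi (X s.1 s.2) y := by
          ext a c
          simp only [Matrix.of_apply]
          rw [hP (t a) y hy]
        rw [this, det_expand (fun a s => P (t a) s) (fun s => Wi (X s.1 s.2) y), Finset.mul_sum]
        refine Finset.sum_congr rfl fun s _ => ?_
        rw [h2 n (fun a => X (s a).1 (s a).2) y]
        push_cast
        ring
      · have h0 : χ y = 0 := image_eq_zero_of_notMem_tsupport fun h => hy (hsupp h)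
        simp [h0]
    show (-2 * I) ^ n * cls Φ χ f t = _
    unfold cls
    rw [integral_congr_ae (Filter.Eventually.of_forall hpt), integral_finsetSum]
    · rw [Finset.mul_sum]
      refine Finset.sum_congr rfl fun s _ => ?_
      rw [integral_const_mul, integral_complex_ofReal]
      have hI : (-2 * I) ^ n * (I / 2) ^ n = 1 := by
        rw [← mul_pow]
        have : -2 * I * (I / 2) = 1 := by
          have := I_mul_I
          linear_combination -this
        rw [this, one_pow]
      show (-2 * I) ^ n * ((∏ a, P (t a) (s a)) * (I / 2) ^ n * Q s) = _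
      linear_combination (∏ a, P (t a) (s a)) * Q s * hI
    · intro s _
      exact (hint s).ofReal.const_mul _
  choose q hq' using hq
  have hfin : (-2 * I) ^ n • cls Φ χ f =
      ∑ s : Two n → Σ i, J i, (q s / (Fintype.card (Equiv.Perm (Two n)) : ℚ)) •
        torusClass (n := n) (fun c => e (s c)) := by
    ext t
    rw [hcls t, average (fun a s => P (t a) s) Q hQ]
    rw [Finset.sum_apply]
    refine Finset.sum_congr rfl fun s _ => ?_
    rw [Pi.smul_apply, Rat.smul_def]
    congr 1
    show ((∫ y, χ y * Jr (Y s) y : ℝ) : ℂ) / _ = _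
    rw [hq' s]
    push_cast
    rfl
  rw [hfin]
  refine Submodule.sum_mem _ fun s _ => Submodule.smul_mem _ _ ?_
  exact Submodule.subset_span ⟨_, rfl⟩

end

end Pool.Agent.RAT
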