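import Pool.Agent.Lib.RAT.Defs
import Pool.Agent.Lib.K708.HolAn

/-!
# Row C1 of RAT: real coordinates of a holomorphic map to a torus of CM type (helper52)
-/

set_option autoImplicit false

open scoped ComplexConjugate Matrix Topology ContDiff
open Complex MeasureTheory Pool.Agent.CMN Pool.Agent.HCM

namespace Pool.Agent.RAT.C1x

noncomputable section

section alg

variable (K : Type) [Field K] [NumberField K]

/-- The index of an integral basis. -/
abbrev JJ : Type := Module.Free.ChooseBasisIndex ℤ (NumberField.RingOfIntegers K)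

/-- An integral basis. -/
def bb (j : JJ K) : K := NumberField.integralBasis K j

open Classical in
/-- The dual basis for the trace form. -/
def dd (j : JJ K) : K :=
  (Algebra.traceForm ℚ K).dualBasis (traceForm_nondegenerate ℚ K) (NumberField.integralBasis K) j

variable {K}

open Classical in
theorem tr_db (i j : JJ K) : Algebra.trace ℚ K (dd K i * bb K j) = if i = j then 1 else 0 := by
  have h := LinearMap.BilinForm.apply_dualBasis_left (traceForm_nondegenerate ℚ K)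
    (NumberField.integralBasis K) i j
  rw [Algebra.traceForm_apply] at h
  rw [show (if i = j then (1 : ℚ) else 0) = if j = i then 1 else 0 by
    simp only [eq_comm]]
  exact h

theorem tr_dx (i : JJ K) (x : K) :
    Algebra.trace ℚ K (dd K i * x) = (NumberField.integralBasis K).repr x i := by
  classical
  conv_lhs => rw [← (NumberField.integralBasis K).sum_repr x]
  rw [Finset.mul_sum, map_sum]
  have h : ∀ j : JJ K, Algebra.trace ℚ K (dd K i *
      ((NumberField.integralBasis K).repr x j • NumberField.integralBasis K j)) =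
      if i = j then (NumberField.integralBasis K).repr x j else 0 := by
    intro j
    rw [mul_smul_comm, map_smul, smul_eq_mul]
    have := tr_db i j
    unfold bb at this
    rw [this]
    split_ifs <;> simp
  rw [Finset.sum_congr rfl fun j _ => h j, Finset.sum_ite_eq]
  simp

theorem tr_eq (x : K) : ((Algebra.trace ℚ K x : ℚ) : ℂ) = ∑ τ : K →+* ℂ, τ x := by
  have h := trace_eq_sum_embeddings ℂ (K := ℚ) (L := K) (x := x)
  rw [eq_ratCast] at h
  rw [h]
  exact (Fintype.sum_equiv (RingHom.equivRatAlgHom (R := K) (S := ℂ)) _ _ fun τ => rfl).symm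

open Classical in
theorem orth (τ σ : K →+* ℂ) : ∑ j, τ (bb K j) * σ (dd K j) = if τ = σ then 1 else 0 := by
  let A : Matrix (K →+* ℂ) (JJ K) ℂ := Matrix.of fun τ j => τ (bb K j)
  let B : Matrix (JJ K) (K →+* ℂ) ℂ := Matrix.of fun j τ => τ (dd K j)
  have hBA : B * A = 1 := by
    ext i j
    rw [Matrix.mul_apply, Matrix.one_apply]
    have h1 : ∀ τ : K →+* ℂ, B i τ * A τ j = τ (dd K i * bb K j) := fun τ => by
      rw [map_mul]
      rfl
    rw [Finset.sum_congr rfl fun τ _ => h1 τ, ← tr_eq, tr_db]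
    split_ifs <;> simp
  have hc : Fintype.card (K →+* ℂ) = Fintype.card (JJ K) := by
    rw [NumberField.Embeddings.card, ← Module.finrank_eq_card_basis (NumberField.integralBasis K)]
  have hAB : A * B = 1 := (Matrix.mul_eq_one_comm_of_card_eq _ _ _ hc).2 hBA
  have h2 := congrFun (congrFun hAB τ) σ
  rw [Matrix.mul_apply, Matrix.one_apply] at h2
  rw [← h2]
  rfl

end alg

section wirtinger

variable {n : ℕ}

/-- Wirtinger derivatives of a complex function. -/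
def WC (G : (Fin n → ℂ) → ℂ) (y : Fin n → ℂ) : Two n → ℂ :=
  Sum.elim
    (fun j => (1 / 2 : ℂ) * (fderiv ℝ G y (Pi.single j 1) - I * fderiv ℝ G y (Pi.single j I)))
    (fun j => (1 / 2 : ℂ) * (fderiv ℝ G y (Pi.single j 1) + I * fderiv ℝ G y (Pi.single j I)))

theorem WC_ofReal {X : (Fin n → ℂ) → ℝ} {y : Fin n → ℂ} (hX : DifferentiableAt ℝ X y) :
    WC (fun z => (X z : ℂ)) y = Wi X y := by
  have h : ∀ v, fderiv ℝ (fun z => (X z : ℂ)) y v = ((fderiv ℝ X y v : ℝ) : ℂ) := by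
    intro v
    have h1 : HasFDerivAt (fun z => (X z : ℂ)) (ofRealCLM.comp (fderiv ℝ X y)) y :=
      ofRealCLM.hasFDerivAt.comp y hX.hasFDerivAt
    rw [h1.fderiv]
    rfl
  unfold WC Wi
  simp only [h]

theorem WC_sum {T : Type} [Fintype T] {c : T → ℂ} {F : T → (Fin n → ℂ) → ℂ} {y : Fin n → ℂ}
    (hF : ∀ t, DifferentiableAt ℝ (F t) y) :
    WC (fun z => ∑ t, c t * F t z) y = ∑ t, c t • WC (F t) y := by
  have h : ∀ v, fderiv ℝ (fun z => ∑ t, c t * F t z) y v = ∑ t, c t * fderiv ℝ (F t) y v := by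
    intro v
    have h1 : HasFDerivAt (fun z => ∑ t, c t * F t z) (∑ t, c t • fderiv ℝ (F t) y) y := by
      refine HasFDerivAt.fun_sum fun t _ => ?_
      exact (hF t).hasFDerivAt.const_mul (c t)
    rw [h1.fderiv, _root_.sum_apply]
    rfl
  funext a
  rw [Finset.sum_apply]
  rcases a with j | j
  · simp only [WC, h, Sum.elim_inl, Pi.smul_apply, smul_eq_mul]
    rw [Finset.mul_sum, ← Finset.sum_sub_distrib, Finset.mul_sum]
    exact Finset.sum_congr rfl fun t _ => by ring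
  · simp only [WC, h, Sum.elim_inr, Pi.smul_apply, smul_eq_mul]
    rw [Finset.mul_sum, ← Finset.sum_add_distrib, Finset.mul_sum]
    exact Finset.sum_congr rfl fun t _ => by ring

theorem single_I (j : Fin n) : (Pi.single j I : Fin n → ℂ) = I • (Pi.single j 1 : Fin n → ℂ) := by
  funext i
  by_cases h : i = j
  · subst h
    simp
  · simp [Pi.single_eq_of_ne h]

theorem fderiv_R {G : (Fin n → ℂ) → ℂ} {y : Fin n → ℂ} (hG : DifferentiableAt ℂ G y)
    (v : Fin n → ℂ) : fderiv ℝ G y v = fderiv ℂ G y v := by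
  rw [(hG.hasFDerivAt.restrictScalars ℝ).fderiv]
  rfl

theorem WC_holo {G : (Fin n → ℂ) → ℂ} {y : Fin n → ℂ} (hG : DifferentiableAt ℂ G y) :
    WC G y = Sum.elim (fun j => fderiv ℂ G y (Pi.single j 1)) 0 := by
  funext a
  rcases a with j | j
  · simp only [WC, Sum.elim_inl, fderiv_R hG, single_I, map_smul, smul_eq_mul]
    linear_combination (-(1 / 2 : ℂ) * fderiv ℂ G y (Pi.single j 1)) * I_mul_I
  · simp only [WC, Sum.elim_inr, fderiv_R hG, single_I, map_smul, smul_eq_mul, Pi.zero_apply]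
    linear_combination ((1 / 2 : ℂ) * fderiv ℂ G y (Pi.single j 1)) * I_mul_I

theorem WC_conj {G : (Fin n → ℂ) → ℂ} {y : Fin n → ℂ} (hG : DifferentiableAt ℂ G y) :
    WC (fun z => conj (G z)) y = Sum.elim (0 : Fin n → ℂ) (fun j => conj (fderiv ℂ G y (Pi.single j 1))) := by
  have h : ∀ v, fderiv ℝ (fun z => conj (G z)) y v = conj (fderiv ℂ G y v) := by
    intro v
    have h1 : HasFDerivAt (fun z => conj (G z))
        ((conjCLE : ℂ →L[ℝ] ℂ).comp ((fderiv ℂ G y).restrictScalars ℝ)) y :=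
      (conjCLE : ℂ →L[ℝ] ℂ).hasFDerivAt.comp y (hG.hasFDerivAt.restrictScalars ℝ)
    rw [h1.fderiv]
    rfl
  funext a
  rcases a with j | j
  · simp only [WC, Sum.elim_inl, h, single_I, map_smul, smul_eq_mul, Pi.zero_apply, map_mul, conj_I]
    linear_combination ((1 / 2 : ℂ) * conj (fderiv ℂ G y (Pi.single j 1))) * I_mul_I
  · simp only [WC, Sum.elim_inr, h, single_I, map_smul, smul_eq_mul, map_mul, conj_I]
    linear_combination (-(1 / 2 : ℂ) * conj (fderiv ℂ G y (Pi.single j 1))) * I_mul_I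

end wirtinger

section main

variable {K : Type} [Field K] {n : ℕ}

theorem cj_cj (τ : K →+* ℂ) : cj (cj τ) = τ := by
  ext x
  simp [cj]

/-- `F_τ`. -/
def Ff (Φ : Set (K →+* ℂ)) (f : (K →+* ℂ) → (Fin n → ℂ) → ℂ) (τ : K →+* ℂ) (y : Fin n → ℂ) : ℂ :=
  haveI := Classical.propDecidable (τ ∈ Φ)
  if τ ∈ Φ then f τ y else conj (f (cj τ) y)

theorem Ff_pos {Φ : Set (K →+* ℂ)} {f : (K →+* ℂ) → (Fin n → ℂ) → ℂ} {τ : K →+* ℂ} (h : τ ∈ Φ) :
    Ff Φ f τ = f τ := by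
  funext y
  exact if_pos h

theorem Ff_neg {Φ : Set (K →+* ℂ)} {f : (K →+* ℂ) → (Fin n → ℂ) → ℂ} {τ : K →+* ℂ} (h : τ ∉ Φ) :
    Ff Φ f τ = fun y => conj (f (cj τ) y) := by
  funext y
  exact if_neg h

theorem Ff_cj {Φ : Set (K →+* ℂ)} (hΦ : IsCMType Φ) (f : (K →+* ℂ) → (Fin n → ℂ) → ℂ)
    (τ : K →+* ℂ) (y : Fin n → ℂ) : Ff Φ f (cj τ) y = conj (Ff Φ f τ y) := by
  by_cases h : τ ∈ Φ
  · have h1 : cj τ ∉ Φ := fun h2 => (hΦ τ).1 h2 h
    rw [Ff_pos h, Ff_neg h1, cj_cj]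
  · have h1 : cj τ ∈ Φ := (hΦ τ).2 h
    rw [Ff_neg h, Ff_pos h1]
    simp

theorem Ff_per {k : Fin (n + 1) → ℝ} {Γ : Subgroup (SLn n)} {Φ : Set (K →+* ℂ)}
    {f : (K →+* ℂ) → (Fin n → ℂ) → ℂ} {ℓ : SLn n → K} (hΦ : IsCMType Φ) (hf : IsMap k Γ Φ f ℓ)
    (τ : K →+* ℂ) {g : SLn n} (hg : g ∈ Γ) {y : Fin n → ℂ} (hy : y ∈ ball k) :
    Ff Φ f τ (actC g y) = Ff Φ f τ y + τ (ℓ g) := by
  by_cases h : τ ∈ Φ
  · rw [Ff_pos h, hf.per τ h g hg y hy]
  · have h1 : cj τ ∈ Φ := (hΦ τ).2 h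
    rw [Ff_neg h]
    simp only
    rw [hf.per _ h1 g hg y hy, map_add]
    simp [cj]

theorem Ff_smooth {k : Fin (n + 1) → ℝ} {Γ : Subgroup (SLn n)} {Φ : Set (K →+* ℂ)}
    {f : (K →+* ℂ) → (Fin n → ℂ) → ℂ} {ℓ : SLn n → K} (hΦ : IsCMType Φ) (hf : IsMap k Γ Φ f ℓ)
    (τ : K →+* ℂ) : ContDiffOn ℝ 2 (Ff Φ f τ) (ball k) := by
  have hc : ∀ τ ∈ Φ, ContDiffOn ℝ 2 (f τ) (ball k) := fun τ h =>
    ((Pool.Agent.K708.holo_omega (isOpen_ball k) (hf.hol τ h)).of_le le_top).restrict_scalars ℝ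
  by_cases h : τ ∈ Φ
  · rw [Ff_pos h]
    exact hc τ h
  · have h1 : cj τ ∈ Φ := (hΦ τ).2 h
    rw [Ff_neg h]
    exact (conjCLE : ℂ →L[ℝ] ℂ).contDiff.comp_contDiffOn (hc _ h1)

theorem Ff_WC {k : Fin (n + 1) → ℝ} {Γ : Subgroup (SLn n)} {Φ : Set (K →+* ℂ)}
    {f : (K →+* ℂ) → (Fin n → ℂ) → ℂ} {ℓ : SLn n → K} (hΦ : IsCMType Φ) (hf : IsMap k Γ Φ f ℓ)
    (τ : K →+* ℂ) {y : Fin n → ℂ} (hy : y ∈ ball k) : WC (Ff Φ f τ) y = pull Φ f τ y := by
  have hd : ∀ τ ∈ Φ, DifferentiableAt ℂ (f τ) y := fun τ h =>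
    (hf.hol τ h y hy).differentiableAt ((isOpen_ball k).mem_nhds hy)
  by_cases h : τ ∈ Φ
  · rw [Ff_pos h, WC_holo (hd τ h)]
    unfold pull
    rw [if_pos h]
  · have h1 : cj τ ∈ Φ := (hΦ τ).2 h
    rw [Ff_neg h, WC_conj (hd _ h1)]
    unfold pull
    rw [if_neg h]

variable [NumberField K]

/-- The complex sum. -/
def Hh (Φ : Set (K →+* ℂ)) (f : (K →+* ℂ) → (Fin n → ℂ) → ℂ) (j : JJ K) (y : Fin n → ℂ) : ℂ :=
  ∑ τ : K →+* ℂ, τ (dd K j) * Ff Φ f τ y

/-- Complex conjugation as a permutation of the embeddings. -/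
def cjE : (K →+* ℂ) ≃ (K →+* ℂ) := ⟨cj, cj, cj_cj, cj_cj⟩

theorem Hh_conj {Φ : Set (K →+* ℂ)} (hΦ : IsCMType Φ) (f : (K →+* ℂ) → (Fin n → ℂ) → ℂ)
    (j : JJ K) (y : Fin n → ℂ) : conj (Hh Φ f j y) = Hh Φ f j y := by
  unfold Hh
  rw [map_sum]
  refine Fintype.sum_equiv cjE _ _ fun τ => ?_
  change conj (τ (dd K j) * Ff Φ f τ y) = cj τ (dd K j) * Ff Φ f (cj τ) y
  rw [Ff_cj hΦ, map_mul]
  rfl

theorem Hh_re {Φ : Set (K →+* ℂ)} (hΦ : IsCMType Φ) (f : (K →+* ℂ) → (Fin n → ℂ) → ℂ)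
    (j : JJ K) (y : Fin n → ℂ) : (((Hh Φ f j y).re : ℝ) : ℂ) = Hh Φ f j y :=
  conj_eq_iff_re.1 (Hh_conj hΦ f j y)

/-- The coordinate of an integral element. -/
def mm (ℓ : SLn n → K) (j : JJ K) (g : SLn n) : ℤ :=
  haveI := Classical.propDecidable (IsIntegral ℤ (ℓ g))
  if h : IsIntegral ℤ (ℓ g) then
    (NumberField.RingOfIntegers.basis K).repr (⟨ℓ g, h⟩ : NumberField.RingOfIntegers K) j else 0

theorem mm_eq {ℓ : SLn n → K} (j : JJ K) {g : SLn n} (h : IsIntegral ℤ (ℓ g)) :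
    (Algebra.trace ℚ K (dd K j * ℓ g) : ℚ) = (mm ℓ j g : ℚ) := by
  rw [tr_dx]
  unfold mm
  rw [dif_pos h]
  have h1 := NumberField.integralBasis_repr_apply K (⟨ℓ g, h⟩ : NumberField.RingOfIntegers K) j
  rw [← eq_intCast (algebraMap ℤ ℚ), ← h1]
  rfl

end main

end

end Pool.Agent.RAT.C1x

namespace Pool.Agent.RAT

open C1x in
/-- **Row C1.** -/
theorem row_c1 : RowC1 := by
  intro K _ _ n k Γ Φ f ℓ hP hΦ hf
  have hsm : ∀ j, ContDiffOn ℝ 2 (Hh Φ f j) (ball k) := fun j => by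
    unfold Hh
    exact ContDiffOn.sum fun τ _ => contDiffOn_const.mul (Ff_smooth hΦ hf τ)
  have hX : ∀ j, ContDiffOn ℝ 2 (fun y => (Hh Φ f j y).re) (ball k) := fun j =>
    reCLM.contDiff.comp_contDiffOn (hsm j)
  refine ⟨JJ K, inferInstance, bb K, fun j y => (Hh Φ f j y).re, mm ℓ, hX, ?_, ?_⟩
  · intro j g hg y hy
    have h1 : Hh Φ f j (actC g y) = Hh Φ f j y + ((mm ℓ j g : ℤ) : ℂ) := by
      have h2 := mm_eq j (hf.int g hg)
      have h3 : ((mm ℓ j g : ℤ) : ℂ) = ∑ τ : K →+* ℂ, τ (dd K j * ℓ g) := by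
        rw [← tr_eq, h2]
        simp
      rw [h3]
      unfold Hh
      rw [← Finset.sum_add_distrib]
      refine Finset.sum_congr rfl fun τ _ => ?_
      rw [Ff_per hΦ hf τ hg hy, map_mul]
      ring
    simp only
    rw [h1]
    simp
  · intro τ y hy
    have hd : ∀ σ, DifferentiableAt ℝ (Ff Φ f σ) y := fun σ =>
      ((Ff_smooth hΦ hf σ).contDiffAt ((isOpen_ball k).mem_nhds hy)).differentiableAt (by simp)
    have h1 : ∀ j, Wi (fun y => (Hh Φ f j y).re) y = ∑ σ : K →+* ℂ, σ (dd K j) • pull Φ f σ y := by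
      intro j
      have h2 : DifferentiableAt ℝ (fun y => (Hh Φ f j y).re) y :=
        ((hX j).contDiffAt ((isOpen_ball k).mem_nhds hy)).differentiableAt (by simp)
      rw [← WC_ofReal h2]
      have h3 : (fun z => (((Hh Φ f j z).re : ℝ) : ℂ)) =
          fun z => ∑ σ : K →+* ℂ, σ (dd K j) * Ff Φ f σ z := by
        funext z
        exact Hh_re hΦ f j z
      rw [h3, WC_sum hd]
      exact Finset.sum_congr rfl fun σ _ => by rw [Ff_WC hΦ hf σ hy]
    simp only [h1]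
    rw [Finset.sum_congr rfl fun j _ => Finset.smul_sum]
    rw [Finset.sum_comm]
    have h4 : ∀ σ : K →+* ℂ, ∑ j, τ (bb K j) • σ (dd K j) • pull Φ f σ y =
        (∑ j, τ (bb K j) * σ (dd K j)) • pull Φ f σ y := by
      intro σ
      rw [Finset.sum_smul]
      exact Finset.sum_congr rfl fun j _ => by rw [smul_smul]
    rw [Finset.sum_congr rfl fun σ _ => h4 σ]
    rw [Finset.sum_eq_single τ]
    · rw [orth, if_pos rfl, one_smul]
    · intro σ _ hσ
      rw [orth, if_neg (Ne.symm hσ), zero_smul]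
    · intro h
      exact absurd (Finset.mem_univ _) h

end Pool.Agent.RAT
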