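import Pool.Agent.Lib.RAT.Defs

/-!
# Row C2: the determinant of the Wirtinger derivatives (helper70)
-/

set_option autoImplicit false

open scoped Matrix
open Complex Pool.Agent.CMN Pool.Agent.HCM

namespace Pool.Agent.RAT

theorem row_c2 : RowC2 := by
  intro n X y
  have h : (Matrix.of fun a => Wi (X a) y) =
      (Complex.ofRealHom.mapMatrix (Matrix.of fun a b => fderiv ℝ (X a) y (bas b))) *
        ((Matrix.fromBlocks (1 : Matrix (Fin n) (Fin n) ℂ) 0 ((-I) • 1) 1) *
          (Matrix.fromBlocks ((1 / 2 : ℂ) • (1 : Matrix (Fin n) (Fin n) ℂ)) ((1 / 2 : ℂ) • 1) 0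
            (I • 1))) := by
    ext a b
    rw [Matrix.fromBlocks_multiply, Matrix.mul_apply, Fintype.sum_sum_type]
    rcases b with j | j
    · simp [Wi, bas, Matrix.one_apply, Finset.sum_ite_eq']
      ring
    · simp [Wi, bas, Matrix.one_apply, Finset.sum_ite_eq', mul_add, Finset.sum_add_distrib]
      ring
  rw [h, Matrix.det_mul, Matrix.det_mul, ← RingHom.map_det, Matrix.det_fromBlocks_zero₁₂,
    Matrix.det_fromBlocks_zero₂₁, Matrix.det_smul, Matrix.det_smul]
  simp only [Matrix.det_one, Fintype.card_fin, mul_one, one_mul]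
  rw [← mul_pow, mul_comm, show (1 / 2 : ℂ) * I = I / 2 by ring]
  rfl

end Pool.Agent.RAT
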