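import Pool.Agent.Lib.RAT.Defs

/-!
# Row D: the map `toE` (helper70)
-/

set_option autoImplicit false

open scoped Matrix
open Complex MeasureTheory Pool.Agent.CMN Pool.Agent.HCM

namespace Pool.Agent.RAT

namespace Dx

variable {n : ℕ}

/-- `toE` as a measurable equivalence. -/
noncomputable def tm (n : ℕ) : (Two n → ℝ) ≃ᵐ (Fin n → ℂ) :=
  ((MeasurableEquiv.sumPiEquivProdPi (fun _ : Two n => ℝ)).trans
    (MeasurableEquiv.arrowProdEquivProdArrow ℝ ℝ (Fin n)).symm).trans
      (MeasurableEquiv.piCongrRight fun _ => Complex.measurableEquivRealProd.symm)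

theorem tm_apply (s : Two n → ℝ) : tm n s = toE s := by
  funext j
  change Complex.measurableEquivRealProd.symm (s (Sum.inl j), s (Sum.inr j)) = _
  apply Complex.ext <;> simp [toE]

theorem coe_tm : (tm n : (Two n → ℝ) → Fin n → ℂ) = toE := funext tm_apply

theorem mp_tm : MeasurePreserving (tm n) := by
  refine MeasurePreserving.trans (MeasurePreserving.trans
    (measurePreserving_sumPiEquivProdPi fun _ => volume)
    (volume_measurePreserving_arrowProdEquivProdArrow ℝ ℝ (Fin n)).symm) ?_
  exact volume_preserving_pi fun _ => Complex.volume_preserving_equiv_real_prod.symm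

/-- `toE` as a linear equivalence. -/
noncomputable def tl (n : ℕ) : (Two n → ℝ) ≃ₗ[ℝ] (Fin n → ℂ) :=
  LinearEquiv.ofBijective
    { toFun := toE
      map_add' := fun s t => by funext j; simp [toE]; ring
      map_smul' := fun c s => by funext j; simp [toE]; ring }
    (by
      have := (tm n).bijective
      rw [coe_tm] at this
      exact this)

theorem tl_apply (s : Two n → ℝ) : tl n s = toE s := rfl

theorem toE_eq_sum (s : Two n → ℝ) : toE s = ∑ b, s b • bas b := by
  funext j
  rw [Fintype.sum_sum_type, Pi.add_apply, Finset.sum_apply, Finset.sum_apply]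
  simp [toE, bas, Pi.single_apply, mul_comm]

end Dx

open Dx in
theorem row_d : RowD := by
  intro n
  refine ⟨?_, ?_, ?_, ?_⟩
  · rw [← coe_tm]
    exact mp_tm
  · rw [← coe_tm]
    exact (tm n).measurableEmbedding
  · rw [← coe_tm]
    exact (tm n).bijective
  · intro X y hX
    have h1 : HasFDerivAt (fun z a => X a z) (ContinuousLinearMap.pi fun a => fderiv ℝ (X a) y) y :=
      hasFDerivAt_pi.2 fun a => (hX a).hasFDerivAt
    have h2 : HasFDerivAt (fun z => toE (fun a => X a z))
        (((tl n).toLinearMap.toContinuousLinearMap).comp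
          (ContinuousLinearMap.pi fun a => fderiv ℝ (X a) y)) y :=
      (((tl n).toLinearMap.toContinuousLinearMap).hasFDerivAt).comp y h1
    rw [h2.fderiv, ContinuousLinearMap.det]
    have h3 : ((((tl n).toLinearMap.toContinuousLinearMap).comp
          (ContinuousLinearMap.pi fun a => fderiv ℝ (X a) y) : (Fin n → ℂ) →L[ℝ] (Fin n → ℂ)) :
          (Fin n → ℂ) →ₗ[ℝ] (Fin n → ℂ)) =
        ((tl n : (Two n → ℝ) →ₗ[ℝ] (Fin n → ℂ)) ∘ₗ
          (Matrix.toLin' (Matrix.of fun a b => fderiv ℝ (X a) y (bas b))) ∘ₗ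
          ((tl n).symm : (Fin n → ℂ) →ₗ[ℝ] (Two n → ℝ))) := by
      refine LinearMap.ext fun v => ?_
      obtain ⟨s, rfl⟩ := (tl n).surjective v
      simp only [LinearMap.comp_apply, LinearEquiv.coe_coe, LinearEquiv.symm_apply_apply]
      change (tl n) (fun a => fderiv ℝ (X a) y (tl n s)) = _
      congr 1
      funext a
      rw [tl_apply, toE_eq_sum, map_sum, Matrix.toLin'_apply, Matrix.mulVec]
      simp [dotProduct, mul_comm]
    rw [h3, LinearMap.det_conj, LinearMap.det_toLin']
    rfl

end Pool.Agent.RAT
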