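import Pool.Agent.Lib.RAT.Defs

/-!
# Tank RAT, row J (helper62): chain rule for the real Jacobian determinant
-/

set_option autoImplicit false

open scoped ComplexConjugate Matrix Topology
open Complex MeasureTheory Pool.Agent.CMN Pool.Agent.HCM

namespace Pool.Agent.RAT

noncomputable section

variable {n : ℕ}

namespace Jx

/-- real coordinates -/
def coordE (n : ℕ) : (Fin n → ℂ) ≃ₗ[ℝ] (Two n → ℝ) where
  toFun y := Sum.elim (fun j => (y j).re) (fun j => (y j).im)
  map_add' y z := by
    funext b
    cases b <;> simp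
  map_smul' c y := by
    funext b
    cases b <;> simp
  invFun s j := (s (Sum.inl j) : ℂ) + I * (s (Sum.inr j) : ℂ)
  left_inv y := by
    funext j
    simp only [Sum.elim_inl, Sum.elim_inr]
    rw [mul_comm]
    exact Complex.re_add_im _
  right_inv s := by
    funext b
    cases b <;> simp

/-- the basis `bas` -/
def basE (n : ℕ) : Module.Basis (Two n) ℝ (Fin n → ℂ) := Module.Basis.ofEquivFun (coordE n)

theorem basE_apply (b : Two n) : basE n b = bas b := by
  rw [basE, Module.Basis.coe_ofEquivFun]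
  funext j
  cases b with
  | inl i =>
    by_cases h : j = i
    · subst h
      simp [coordE, bas]
    · simp [coordE, bas, h]
  | inr i =>
    by_cases h : j = i
    · subst h
      simp [coordE, bas]
    · simp [coordE, bas, h]

/-- the chain rule for a real linear map -/
theorem det_comp (L : Two n → (Fin n → ℂ) →L[ℝ] ℝ) (A : (Fin n → ℂ) →L[ℝ] (Fin n → ℂ)) :
    Matrix.det (Matrix.of fun a b => L a (A (bas b))) =
      Matrix.det (Matrix.of fun a b => L a (bas b)) * A.det := by
  have h1 : A.det = (LinearMap.toMatrix (basE n) (basE n) (A : (Fin n → ℂ) →ₗ[ℝ] (Fin n → ℂ))).det := by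
    rw [LinearMap.det_toMatrix]
  rw [h1, ← Matrix.det_mul]
  congr 1
  ext a b
  rw [Matrix.mul_apply, Matrix.of_apply]
  simp only [Matrix.of_apply, LinearMap.toMatrix_apply, ContinuousLinearMap.coe_coe]
  have h2 : A (bas b) = ∑ c, (basE n).repr (A (bas b)) c • bas c := by
    conv_lhs => rw [← (basE n).sum_repr (A (bas b))]
    simp only [basE_apply]
  conv_lhs => rw [h2]
  rw [map_sum]
  refine Finset.sum_congr rfl fun c _ => ?_
  rw [map_smul, smul_eq_mul, basE_apply, mul_comm]

end Jx

open Jx

theorem row_j : RowJ := by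
  intro n k g Y y hs hg hy hY
  have hj : Pool.CMN.Jac.jf g.1 y ≠ 0 := Pool.CMN.Jac.jf_ne_zero hs.pos hg hy
  have hjd : jd g y = (Pool.CMN.Jac.ract g.1 y).det :=
    (Pool.CMN.Jac.det_ract_of_isU hs hg hy).symm
  refine ⟨?_, ?_⟩
  · unfold jd
    have : (0 : ℝ) < ‖(g.1 *ᵥ hat y) (Fin.last n)‖ := norm_pos_iff.2 hj
    positivity
  · have hact : HasFDerivAt (actC g) (Pool.CMN.Jac.ract g.1 y) y :=
      Pool.CMN.Jac.hasFDerivAt_act_real g.1 hj
    rw [hjd, mul_comm]
    unfold Jr
    rw [← det_comp]
    congr 1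
    ext a b
    simp only [Matrix.of_apply]
    have h := (hY a).hasFDerivAt.comp y hact
    have h' : fderiv ℝ (fun z => Y a (actC g z)) y =
        (fderiv ℝ (Y a) (actC g y)).comp (Pool.CMN.Jac.ract g.1 y) := h.fderiv
    rw [h']
    rfl

end

end Pool.Agent.RAT
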