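import Pool.Agent.Lib.RAT.Defs

/-!
# Tank RAT, row L: all points above a regular value (helper18)
-/

set_option autoImplicit false

open scoped ComplexConjugate Matrix Topology
open Complex MeasureTheory Pool.Agent.CMN Pool.Agent.HCM

namespace Pool.Agent.RAT

namespace Lx

variable {n : ℕ}

theorem bump_mono {δ δ' : ℝ} {ψ : ℝ → ℝ} (h : δ ≤ δ') (hb : Bump δ ψ) : Bump δ' ψ :=
  ⟨hb.smooth, hb.nonneg, hb.per, hb.int, fun t ht => by
    obtain ⟨m, hm⟩ := hb.supp t ht
    exact ⟨m, hm.trans_le h⟩⟩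

theorem continuousOn_Jr {B : Set (Fin n → ℂ)} (hB : IsOpen B) {X : Two n → (Fin n → ℂ) → ℝ}
    (hX : ∀ a, ContDiffOn ℝ 1 (X a) B) : ContinuousOn (Jr X) B := by
  unfold Jr
  refine (Continuous.matrix_det continuous_id).comp_continuousOn ?_
  refine continuousOn_pi.2 fun a => continuousOn_pi.2 fun b => ?_
  exact ((hX a).continuousOn_fderiv_of_isOpen hB le_rfl).clm_apply continuousOn_const

/-- The distance to the integers. -/
noncomputable def dZ (x : ℝ) : ℝ := Metric.infDist x (Set.range ((↑) : ℤ → ℝ))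

theorem dZ_nonneg (x : ℝ) : 0 ≤ dZ x := Metric.infDist_nonneg

theorem dZ_le (x : ℝ) (m : ℤ) : dZ x ≤ |x - m| := by
  have := Metric.infDist_le_dist_of_mem (x := x) (Set.mem_range_self (f := ((↑) : ℤ → ℝ)) m)
  rwa [Real.dist_eq] at this

theorem continuous_dZ : Continuous dZ := Metric.continuous_infDist_pt _

theorem dZ_eq_zero {x : ℝ} (h : dZ x = 0) : ∃ m : ℤ, x = m := by
  have hc : IsClosed (Set.range ((↑) : ℤ → ℝ)) := Int.isClosedEmbedding_coe_real.isClosed_range
  have h1 := (hc.mem_iff_infDist_zero (Set.range_nonempty _)).2 h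
  obtain ⟨m, hm⟩ := h1
  exact ⟨m, hm.symm⟩

/-- The total distance to the fibre. -/
noncomputable def dF (X : Two n → (Fin n → ℂ) → ℝ) (s : Two n → ℝ) (y : Fin n → ℂ) : ℝ :=
  ∑ a, dZ (X a y - s a)

theorem dF_pos {X : Two n → (Fin n → ℂ) → ℝ} {s : Two n → ℝ} {y : Fin n → ℂ}
    (h : y ∉ fib X s) : 0 < dF X s y := by
  refine lt_of_le_of_ne (Finset.sum_nonneg fun a _ => dZ_nonneg _) fun h0 => h ?_
  have h1 := (Finset.sum_eq_zero_iff_of_nonneg (fun a _ => dZ_nonneg _)).1 h0.symm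
  choose m hm using fun a => dZ_eq_zero (h1 a (Finset.mem_univ a))
  exact ⟨m, fun a => by have := hm a; linarith⟩

theorem continuousOn_dF {B : Set (Fin n → ℂ)} {X : Two n → (Fin n → ℂ) → ℝ}
    (hX : ∀ a, ContDiffOn ℝ 1 (X a) B) (s : Two n → ℝ) : ContinuousOn (dF X s) B := by
  unfold dF
  refine continuousOn_finsetSum _ fun a _ => ?_
  exact continuous_dZ.comp_continuousOn ((hX a).continuousOn.sub continuousOn_const)

end Lx

open Lx

/-- Row L. -/
theorem row_l (h1 : RowL1) : RowL := by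
  intro n B χ X s hB hχ hχc hχB hX hreg
  have hcomp : IsCompact (tsupport χ) := hχc
  -- finiteness
  have hfin : (tsupport χ ∩ fib X s).Finite := by
    have hU : ∀ y ∈ tsupport χ, ∃ U ∈ 𝓝 y, U ∩ fib X s ⊆ {y} := by
      intro y hy
      by_cases hf : y ∈ fib X s
      · obtain ⟨r₀, hr₀, hsub, hiso, -⟩ := h1 n B χ X s y hB (hχB hy) hχ hX hf
          (hreg y (hχB hy) hf) 1 one_pos
        exact ⟨Metric.closedBall y r₀, Metric.closedBall_mem_nhds y hr₀,
          fun z hz => hiso z hz.1 hz.2⟩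
      · have hc := (continuousOn_dF hX s).continuousAt (hB.mem_nhds (hχB hy))
        have hp := dF_pos hf
        refine ⟨{z | 0 < dF X s z}, hc.eventually (lt_mem_nhds hp), ?_⟩
        rintro z ⟨hz1, hz2⟩
        exfalso
        obtain ⟨m, hm⟩ := hz2
        have : dF X s z ≤ 0 := by
          refine Finset.sum_nonpos fun a _ => ?_
          have := dZ_le (X a z - s a) (m a)
          rw [hm a] at this ⊢
          simpa using this
        exact absurd hz1 (not_lt.2 this)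
    choose! U hUn hUs using hU
    obtain ⟨t, ht, hcov⟩ := hcomp.elim_nhds_subcover U hUn
    refine t.finite_toSet.subset ?_
    rintro z ⟨hz1, hz2⟩
    obtain ⟨y, hy, hzy⟩ := Set.mem_iUnion₂.1 (hcov hz1)
    have := hUs y (ht y hy) ⟨hzy, hz2⟩
    rw [Set.mem_singleton_iff] at this
    rw [this]
    exact hy
  refine ⟨hfin, fun ε hε => ?_⟩
  set P : Finset (Fin n → ℂ) := hfin.toFinset with hP
  have hPmem : ∀ p, p ∈ P ↔ p ∈ tsupport χ ∩ fib X s := fun p => by
    rw [hP, Set.Finite.mem_toFinset]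
  set ε' : ℝ := ε / (P.card + 1) with hε'
  have hε'0 : 0 < ε' := by positivity
  -- the radii
  have hL : ∀ p : Fin n → ℂ, ∃ r₀ : ℝ, p ∈ P → 0 < r₀ ∧ Metric.closedBall p r₀ ⊆ B ∧
    ∀ r : ℝ, 0 < r → r ≤ r₀ → ∃ δ : ℝ, 0 < δ ∧ ∀ ψ : ℝ → ℝ, Bump δ ψ →
      |(∫ y in Metric.closedBall p r, χ y * ((∏ a, ψ (X a y - s a)) * Jr X y)) -
        χ p * ((SignType.sign (Jr X p) : ℤ) : ℝ)| ≤ ε' := by
    intro p
    by_cases hp : p ∈ P
    · have hp' := (hPmem p).1 hp
      obtain ⟨r₀, hr₀, hsub, -, h⟩ := h1 n B χ X s p hB (hχB hp'.1) hχ hX hp'.2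
          (hreg p (hχB hp'.1) hp'.2) ε' hε'0
      exact ⟨r₀, fun _ => ⟨hr₀, hsub, h⟩⟩
    · exact ⟨0, fun h => absurd h hp⟩
  choose r₀ hr₀ using hL
  obtain ⟨r, hr, hrle, hrdis⟩ : ∃ r : ℝ, 0 < r ∧ (∀ p ∈ P, r ≤ r₀ p) ∧
      ∀ p ∈ P, ∀ p' ∈ P, p ≠ p' → 2 * r < dist p p' := by
    classical
    set S : Finset ℝ := P.image r₀ ∪ ((P ×ˢ P).filter fun q => q.1 ≠ q.2).image
      (fun q => dist q.1 q.2 / 3) ∪ {1} with hS
    have hSne : S.Nonempty := ⟨1, by simp [hS]⟩
    have hSpos : ∀ x ∈ S, 0 < x := by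
      intro x hx
      rw [hS, Finset.mem_union, Finset.mem_union] at hx
      rcases hx with (hx | hx) | hx
      · obtain ⟨p, hp, rfl⟩ := Finset.mem_image.1 hx
        exact (hr₀ p hp).1
      · obtain ⟨q, hq, rfl⟩ := Finset.mem_image.1 hx
        have := (Finset.mem_filter.1 hq).2
        have := dist_pos.2 this
        positivity
      · rw [Finset.mem_singleton] at hx
        rw [hx]; exact one_pos
    refine ⟨S.min' hSne, hSpos _ (S.min'_mem hSne), fun p hp => ?_, fun p hp p' hp' hne => ?_⟩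
    · refine S.min'_le _ ?_
      rw [hS, Finset.mem_union, Finset.mem_union]
      exact Or.inl (Or.inl (Finset.mem_image_of_mem _ hp))
    · have h2 : S.min' hSne ≤ dist p p' / 3 := by
        refine S.min'_le _ ?_
        rw [hS, Finset.mem_union, Finset.mem_union]
        refine Or.inl (Or.inr (Finset.mem_image.2 ⟨(p, p'), ?_, rfl⟩))
        exact Finset.mem_filter.2 ⟨Finset.mem_product.2 ⟨hp, hp'⟩, hne⟩
      have := dist_pos.2 hne
      linarith
  -- the widths
  have hD : ∀ p : Fin n → ℂ, ∃ δ : ℝ, p ∈ P → 0 < δ ∧ ∀ ψ : ℝ → ℝ, Bump δ ψ →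
      |(∫ y in Metric.closedBall p r, χ y * ((∏ a, ψ (X a y - s a)) * Jr X y)) -
        χ p * ((SignType.sign (Jr X p) : ℤ) : ℝ)| ≤ ε' := by
    intro p
    by_cases hp : p ∈ P
    · obtain ⟨δ, hδ⟩ := (hr₀ p hp).2.2 r hr (hrle p hp)
      exact ⟨δ, fun _ => hδ⟩
    · exact ⟨0, fun h => absurd h hp⟩
  choose δp hδp using hD
  -- away from the fibre
  set K' : Set (Fin n → ℂ) := tsupport χ \ ⋃ p ∈ P, Metric.ball p r with hK'
  have hK'c : IsCompact K' := hcomp.diff (isOpen_biUnion fun p _ => Metric.isOpen_ball)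
  have hK'f : ∀ y ∈ K', y ∉ fib X s := by
    rintro y ⟨hy1, hy2⟩ hf
    exact hy2 (Set.mem_iUnion₂.2 ⟨y, (hPmem y).2 ⟨hy1, hf⟩, Metric.mem_ball_self hr⟩)
  obtain ⟨D₀, hD₀, hD₀'⟩ : ∃ D₀ : ℝ, 0 < D₀ ∧ ∀ y ∈ K', D₀ ≤ dF X s y := by
    rcases K'.eq_empty_or_nonempty with h | h
    · exact ⟨1, one_pos, fun y hy => by rw [h] at hy; exact absurd hy (Set.notMem_empty y)⟩
    · obtain ⟨z, hz, hmin⟩ := hK'c.exists_isMinOn h
        ((continuousOn_dF hX s).mono fun y hy => hχB hy.1)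
      exact ⟨dF X s z, dF_pos (hK'f z hz), fun y hy => hmin hy⟩
  set c : ℝ := (Fintype.card (Two n) : ℝ) + 1 with hc
  have hc0 : 0 < c := by positivity
  obtain ⟨δ, hδ, hδle, hδD⟩ : ∃ δ : ℝ, 0 < δ ∧ (∀ p ∈ P, δ ≤ δp p) ∧ δ ≤ D₀ / c := by
    classical
    set S : Finset ℝ := P.image δp ∪ {D₀ / c} with hS
    have hSne : S.Nonempty := ⟨D₀ / c, by simp [hS]⟩
    have hSpos : ∀ x ∈ S, 0 < x := by
      intro x hx
      rw [hS, Finset.mem_union] at hx
      rcases hx with hx | hx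
      · obtain ⟨p, hp, rfl⟩ := Finset.mem_image.1 hx
        exact (hδp p hp).1
      · rw [Finset.mem_singleton] at hx
        rw [hx]; positivity
    refine ⟨S.min' hSne, hSpos _ (S.min'_mem hSne), fun p hp => ?_, ?_⟩
    · refine S.min'_le _ ?_
      rw [hS, Finset.mem_union]
      exact Or.inl (Finset.mem_image_of_mem _ hp)
    · refine S.min'_le _ ?_
      rw [hS, Finset.mem_union]
      exact Or.inr (Finset.mem_singleton_self _)
  refine ⟨δ, hδ, fun ψ hψ => ?_⟩
  set G : (Fin n → ℂ) → ℝ := fun y => χ y * ((∏ a, ψ (X a y - s a)) * Jr X y) with hG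
  have hzero : ∀ y ∉ ⋃ p ∈ P, Metric.closedBall p r, G y = 0 := by
    intro y hy
    by_cases hyK : y ∈ tsupport χ
    · have hyK' : y ∈ K' := by
        refine ⟨hyK, fun h => hy ?_⟩
        obtain ⟨p, hp, hp'⟩ := Set.mem_iUnion₂.1 h
        exact Set.mem_iUnion₂.2 ⟨p, hp, Metric.ball_subset_closedBall hp'⟩
      have h2 := hD₀' y hyK'
      have h3 : ∃ a, ψ (X a y - s a) = 0 := by
        by_contra hcon
        push Not at hcon
        have h4 : ∀ a, dZ (X a y - s a) ≤ D₀ / c := by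
          intro a
          obtain ⟨m, hm⟩ := hψ.supp _ (hcon a)
          exact (dZ_le _ m).trans (hm.le.trans hδD)
        have h5 : dF X s y ≤ ∑ _a : Two n, D₀ / c := Finset.sum_le_sum fun a _ => h4 a
        rw [Finset.sum_const, nsmul_eq_mul, Finset.card_univ] at h5
        have h6 : (Fintype.card (Two n) : ℝ) * (D₀ / c) < D₀ := by
          rw [mul_div_assoc', div_lt_iff₀ hc0, hc]
          nlinarith
        linarith
      obtain ⟨a, ha⟩ := h3
      simp only [hG]
      rw [Finset.prod_eq_zero (Finset.mem_univ a) ha]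
      ring
    · simp only [hG]
      rw [image_eq_zero_of_notMem_tsupport hyK, zero_mul]
  have hGi : ∀ p ∈ P, IntegrableOn G (Metric.closedBall p r) := by
    intro p hp
    have hsub : Metric.closedBall p r ⊆ B :=
      (Metric.closedBall_subset_closedBall (hrle p hp)).trans (hr₀ p hp).2.1
    refine ContinuousOn.integrableOn_compact (isCompact_closedBall p r) ?_
    refine hχ.continuousOn.mul (ContinuousOn.mul ?_ ((continuousOn_Jr hB hX).mono hsub))
    refine continuousOn_finsetProd _ fun a _ => ?_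
    exact hψ.smooth.continuous.comp_continuousOn
      (((hX a).continuousOn.mono hsub).sub continuousOn_const)
  have hint : ∫ y, G y = ∑ p ∈ P, ∫ y in Metric.closedBall p r, G y := by
    rw [← setIntegral_eq_integral_of_forall_compl_eq_zero hzero]
    refine integral_biUnion_finset P (fun p _ => Metric.isClosed_closedBall.measurableSet) ?_ hGi
    intro p hp p' hp' hne
    refine Metric.closedBall_disjoint_closedBall ?_
    have := hrdis p hp p' hp' hne
    linarith
  have hsum : ∑ᶠ y ∈ tsupport χ ∩ fib X s, χ y * ((SignType.sign (Jr X y) : ℤ) : ℝ) =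
      ∑ p ∈ P, χ p * ((SignType.sign (Jr X p) : ℤ) : ℝ) :=
    finsum_mem_eq_finite_toFinset_sum _ hfin
  rw [hint, hsum, ← Finset.sum_sub_distrib]
  refine (Finset.abs_sum_le_sum_abs _ _).trans ?_
  refine (Finset.sum_le_sum fun p hp => (hδp p hp).2 ψ (bump_mono (hδle p hp) hψ)).trans ?_
  rw [Finset.sum_const, nsmul_eq_mul, hε']
  have h7 : (0 : ℝ) < (P.card : ℝ) + 1 := by positivity
  rw [mul_div_assoc', div_le_iff₀ h7]
  nlinarith

end Pool.Agent.RAT
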