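import Pool.Agent.Lib.RAT.Defs

/-!
# Tank RAT, row L1 (helper64): one point above a regular value
-/

set_option autoImplicit false

open scoped ComplexConjugate Matrix Topology
open Complex MeasureTheory Pool.Agent.CMN Pool.Agent.HCM

namespace Pool.Agent.RAT

noncomputable section

namespace L1x

variable {n : ℕ}

/-- The inverse of `toE`. -/
def fromE (w : Fin n → ℂ) : Two n → ℝ := fun a =>
  Sum.elim (fun j => (w j).re) (fun j => (w j).im) a

theorem fromE_toE (s : Two n → ℝ) : fromE (toE s) = s := by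
  funext a
  rcases a with j | j <;> simp [fromE, toE]

theorem continuous_toE : Continuous (toE : (Two n → ℝ) → Fin n → ℂ) := by
  unfold toE
  fun_prop

theorem continuousOn_Jr {B : Set (Fin n → ℂ)} {X : Two n → (Fin n → ℂ) → ℝ} (hB : IsOpen B)
    (hX : ∀ a, ContDiffOn ℝ 1 (X a) B) : ContinuousOn (Jr X) B := by
  have hdet : Continuous (fun M : Matrix (Two n) (Two n) ℝ => M.det) := continuous_id.matrix_det
  refine hdet.comp_continuousOn ?_
  refine continuousOn_pi.2 fun a => continuousOn_pi.2 fun b => ?_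
  exact ((hX a).continuousOn_fderiv_of_isOpen hB le_rfl).clm_apply continuousOn_const

theorem contDiffOn_G {B : Set (Fin n → ℂ)} {X : Two n → (Fin n → ℂ) → ℝ}
    (hX : ∀ a, ContDiffOn ℝ 1 (X a) B) :
    ContDiffOn ℝ 1 (fun z => toE (fun a => X a z)) B := by
  refine contDiffOn_pi.2 fun j => ?_
  exact (Complex.ofRealCLM.contDiff.comp_contDiffOn (hX _)).add
    (contDiffOn_const.mul (Complex.ofRealCLM.contDiff.comp_contDiffOn (hX _)))

/-- The integral of a periodic function over a unit interval. -/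
theorem int_shift {δ : ℝ} {ψ : ℝ → ℝ} (hψ : Bump δ ψ) (s : ℝ) (m : ℤ) :
    ∫ t, (Set.Ioc (s + m - 1 / 2) (s + m + 1 / 2)).indicator (fun t => ψ (t - s)) t = 1 := by
  rw [integral_indicator measurableSet_Ioc, ← intervalIntegral.integral_of_le (by linarith),
    intervalIntegral.integral_comp_sub_right (fun t => ψ t)]
  have hp : Function.Periodic ψ 1 := hψ.per
  have h1 : s + m + 1 / 2 - s = (s + m - 1 / 2 - s) + 1 := by ring
  rw [h1, hp.intervalIntegral_add_eq (s + m - 1 / 2 - s) 0, zero_add]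
  exact hψ.int

theorem int_cube {δ : ℝ} {ψ : ℝ → ℝ} (hψ : Bump δ ψ) (s : Two n → ℝ) (m : Two n → ℤ) :
    ∫ t : Two n → ℝ, ∏ a, (Set.Ioc (s a + m a - 1 / 2) (s a + m a + 1 / 2)).indicator
      (fun t => ψ (t - s a)) (t a) = 1 := by
  rw [integral_fintype_prod_volume_eq_prod (fun a : Two n =>
    (Set.Ioc (s a + m a - 1 / 2) (s a + m a + 1 / 2)).indicator (fun t => ψ (t - s a)))]
  exact Finset.prod_eq_one fun a _ => int_shift hψ (s a) (m a)

end L1x

open L1x in
/-- Row L1. -/
theorem row_l1 (hD : RowD) : RowL1 := by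
  classical
  intro n B χ X s y₀ hB hy₀ hχ hX hfib hJ ε hε
  obtain ⟨hmp, hme, hbij, hdet⟩ := hD n
  obtain ⟨m, hm⟩ := hfib
  have hXc : ∀ a, ContinuousOn (X a) B := fun a => (hX a).continuousOn
  have hXd : ∀ a, ∀ y ∈ B, DifferentiableAt ℝ (X a) y := fun a y hy =>
    ((hX a).contDiffAt (hB.mem_nhds hy)).differentiableAt one_ne_zero
  set G : (Fin n → ℂ) → Fin n → ℂ := fun z => toE (fun a => X a z) with hG
  have hGC : ContDiffOn ℝ 1 G B := contDiffOn_G hX
  have hGat : ContDiffAt ℝ 1 G y₀ := hGC.contDiffAt (hB.mem_nhds hy₀)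
  have hdet0 : (fderiv ℝ G y₀).det ≠ 0 := by rw [hdet X y₀ fun a => hXd a y₀ hy₀]; exact hJ
  set D : (Fin n → ℂ) ≃L[ℝ] (Fin n → ℂ) :=
    (fderiv ℝ G y₀).toContinuousLinearEquivOfDetNeZero hdet0 with hDdef
  have hDs : HasStrictFDerivAt G (D : (Fin n → ℂ) →L[ℝ] (Fin n → ℂ)) y₀ := by
    rw [hDdef, ContinuousLinearMap.coe_toContinuousLinearEquivOfDetNeZero]
    exact hGat.hasStrictFDerivAt one_ne_zero
  set e := hDs.toOpenPartialHomeomorph G with he
  have hes : y₀ ∈ e.source := hDs.mem_toOpenPartialHomeomorph_source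
  have heG : ∀ z, e z = G z := fun z => rfl
  have hJc := continuousOn_Jr hB hX
  -- the neighbourhood
  have hev : ∀ᶠ y in 𝓝 y₀, y ∈ B ∧ y ∈ e.source ∧ |χ y - χ y₀| ≤ ε ∧
      (∀ a, |X a y - X a y₀| < 1 / 2) ∧ SignType.sign (Jr X y) = SignType.sign (Jr X y₀) := by
    have hev1 : ∀ᶠ y in 𝓝 y₀, y ∈ B := hB.mem_nhds hy₀
    have hev2 : ∀ᶠ y in 𝓝 y₀, y ∈ e.source := e.open_source.mem_nhds hes
    refine hev1.and (hev2.and ?_)
    refine Filter.Eventually.and ?_ (Filter.Eventually.and ?_ ?_)
    · have h1 := hχ.tendsto y₀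
      rw [Metric.tendsto_nhds] at h1
      filter_upwards [h1 ε hε] with y hy
      rw [Real.dist_eq] at hy
      exact hy.le
    · rw [Filter.eventually_all]
      intro a
      have h1 : Filter.Tendsto (X a) (𝓝 y₀) (𝓝 (X a y₀)) :=
        ((hXc a).continuousAt (hB.mem_nhds hy₀)).tendsto
      rw [Metric.tendsto_nhds] at h1
      filter_upwards [h1 (1 / 2) (by norm_num)] with y hy
      rwa [Real.dist_eq] at hy
    · have h1 : Filter.Tendsto (Jr X) (𝓝 y₀) (𝓝 (Jr X y₀)) :=
        (hJc.continuousAt (hB.mem_nhds hy₀)).tendsto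
      rcases lt_or_gt_of_ne hJ with h | h
      · filter_upwards [h1.eventually (gt_mem_nhds h)] with y hy
        rw [sign_neg hy, sign_neg h]
      · filter_upwards [h1.eventually (lt_mem_nhds h)] with y hy
        rw [sign_pos hy, sign_pos h]
  obtain ⟨r₀, hr₀, hball⟩ := Metric.nhds_basis_closedBall.mem_iff.1 hev
  refine ⟨r₀, hr₀, fun y hy => (hball hy).1, ?_, ?_⟩
  · rintro y hy ⟨m', hm'⟩
    obtain ⟨hyB, hyS, _, hyX, _⟩ := hball hy
    have h2 : ∀ a, X a y = X a y₀ := by
      intro a
      have h3 := hyX a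
      rw [hm' a, hm a] at h3
      have h4 : |((m' a - m a : ℤ) : ℝ)| < 1 := by
        push_cast
        calc |(m' a : ℝ) - m a| = |s a + m' a - (s a + m a)| := by ring_nf
          _ < 1 / 2 := h3
          _ < 1 := by norm_num
      rw [← Int.cast_abs] at h4
      have h5 : |m' a - m a| < 1 := by exact_mod_cast h4
      rw [Int.abs_lt_one_iff, sub_eq_zero] at h5
      rw [hm' a, hm a, h5]
    have h6 : G y = G y₀ := by simp only [hG, h2]
    exact e.injOn hyS hes (by rw [heG, heG]; exact h6)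
  intro r hr hrr
  have hsub : ∀ y ∈ Metric.closedBall y₀ r, y ∈ B ∧ y ∈ e.source ∧ |χ y - χ y₀| ≤ ε ∧
      (∀ a, |X a y - X a y₀| < 1 / 2) ∧ SignType.sign (Jr X y) = SignType.sign (Jr X y₀) :=
    fun y hy => hball (Metric.closedBall_subset_closedBall hrr hy)
  -- the image contains a cube
  have hopen : IsOpen (e '' Metric.ball y₀ r) := by
    refine e.isOpen_image_of_subset_source Metric.isOpen_ball fun y hy => ?_
    exact (hsub y (Metric.ball_subset_closedBall hy)).2.1
  have hnh : toE ⁻¹' (e '' Metric.ball y₀ r) ∈ 𝓝 (fun a => X a y₀) := by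
    refine (hopen.preimage continuous_toE).mem_nhds ?_
    exact ⟨y₀, Metric.mem_ball_self hr, rfl⟩
  obtain ⟨δ', hδ', hcube⟩ := Metric.mem_nhds_iff.1 hnh
  refine ⟨min δ' (1 / 2), lt_min hδ' (by norm_num), ?_⟩
  intro ψ hψ
  set P : (Two n → ℝ) → ℝ := fun t => ∏ a, ψ (t a - s a) with hP
  have hPc : Continuous P := by
    have := hψ.smooth.continuous
    fun_prop
  have hP0 : ∀ t, 0 ≤ P t := fun t => Finset.prod_nonneg fun a _ => hψ.nonneg _
  set cB := Metric.closedBall y₀ r with hcB
  have hcBm : MeasurableSet cB := Metric.isClosed_closedBall.measurableSet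
  have hcBB : cB ⊆ B := fun y hy => (hsub y hy).1
  have hcBc : IsCompact cB := isCompact_closedBall y₀ r
  -- the total mass
  have hmass : ∫ y in cB, P (fun a => X a y) * |Jr X y| = 1 := by
    have h1 := integral_image_eq_integral_abs_det_fderiv_smul
      (μ := (volume : Measure (Fin n → ℂ))) (s := cB) (f := G) (f' := fderiv ℝ G) hcBm
      (fun y hy => ((hGC.contDiffAt (hB.mem_nhds (hcBB hy))).differentiableAt
        one_ne_zero).hasFDerivAt.hasFDerivWithinAt)
      (fun y hy z hz hyz => e.injOn (hsub y hy).2.1 (hsub z hz).2.1 (by rw [heG, heG]; exact hyz))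
      (fun w => P (fromE w))
    have h2 : ∫ y in cB, |(fderiv ℝ G y).det| • P (fromE (G y)) =
        ∫ y in cB, P (fun a => X a y) * |Jr X y| := by
      refine setIntegral_congr_fun hcBm fun y hy => ?_
      simp only [hG, fromE_toE, smul_eq_mul]
      rw [hdet X y fun a => hXd a y (hcBB hy), mul_comm]
    rw [← h2, ← h1]
    have h3 := hmp.setIntegral_preimage_emb hme (fun w => P (fromE w)) (G '' cB)
    rw [← h3]
    simp only [fromE_toE]
    have hGm : MeasurableSet (toE ⁻¹' (G '' cB)) := by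
      have h4 : IsCompact (G '' cB) := hcBc.image_of_continuousOn (hGC.continuousOn.mono hcBB)
      exact h4.isClosed.measurableSet.preimage continuous_toE.measurable
    rw [← integral_indicator hGm, ← int_cube hψ s m]
    congr 1
    funext t
    by_cases hQ : ∀ a, t a ∈ Set.Ioc (s a + m a - 1 / 2) (s a + m a + 1 / 2)
    · have h5 : ∏ a, (Set.Ioc (s a + m a - 1 / 2) (s a + m a + 1 / 2)).indicator
          (fun t => ψ (t - s a)) (t a) = P t :=
        Finset.prod_congr rfl fun a _ => Set.indicator_of_mem (hQ a) _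
      rw [h5]
      by_cases ht : t ∈ toE ⁻¹' (G '' cB)
      · rw [Set.indicator_of_mem ht]
      · rw [Set.indicator_of_notMem ht]
        by_contra hne
        have hne' : ∀ a, ψ (t a - s a) ≠ 0 := fun a h0 =>
          hne (Finset.prod_eq_zero (Finset.mem_univ a) h0).symm
        apply ht
        have h6 : t ∈ Metric.ball (fun a => X a y₀) δ' := by
          rw [mem_ball_iff_norm, pi_norm_lt_iff hδ']
          intro a
          obtain ⟨m', hm'⟩ := hψ.supp _ (hne' a)
          have h7 := hQ a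
          have h8 : m' = m a := by
            have h9 : |t a - s a - m'| < 1 / 2 := hm'.trans_le (min_le_right _ _)
            rw [abs_lt] at h9
            have h10 : |((m' - m a : ℤ) : ℝ)| < 1 := by
              push_cast
              rw [abs_lt]
              constructor <;> linarith [h7.1, h7.2]
            rw [← Int.cast_abs] at h10
            have h11 : |m' - m a| < 1 := by exact_mod_cast h10
            rw [Int.abs_lt_one_iff, sub_eq_zero] at h11
            exact h11
          rw [Pi.sub_apply, Real.norm_eq_abs, hm a]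
          calc |t a - (s a + m a)| = |t a - s a - m'| := by rw [h8]; ring_nf
            _ < δ' := hm'.trans_le (min_le_left _ _)
        obtain ⟨y, hy, hyt⟩ := hcube h6
        exact ⟨y, Metric.ball_subset_closedBall hy, hyt⟩
    · rw [not_forall] at hQ
      obtain ⟨a, ha⟩ := hQ
      rw [Finset.prod_eq_zero (Finset.mem_univ a) (Set.indicator_of_notMem ha _)]
      refine Set.indicator_of_notMem (fun ht => ha ?_) _
      obtain ⟨y, hy, hyt⟩ := ht
      have h5 : (fun a => X a y) = t := hbij.1 hyt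
      have h6 := (hsub y hy).2.2.2.1 a
      rw [hm a, abs_lt] at h6
      rw [← h5]
      constructor <;> linarith [h6.1, h6.2]
  -- integrability
  have hPX : ContinuousOn (fun y => P (fun a => X a y)) cB :=
    hPc.comp_continuousOn (continuousOn_pi.2 fun a => (hXc a).mono hcBB)
  have hJcB : ContinuousOn (Jr X) cB := hJc.mono hcBB
  have hi1 : IntegrableOn (fun y => P (fun a => X a y) * |Jr X y|) cB :=
    (hPX.mul hJcB.abs).integrableOn_compact hcBc
  have hi2 : IntegrableOn (fun y => χ y * (P (fun a => X a y) * Jr X y)) cB :=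
    (hχ.continuousOn.mul (hPX.mul hJcB)).integrableOn_compact hcBc
  have hi3 : IntegrableOn (fun y => χ y₀ * (P (fun a => X a y) * Jr X y)) cB :=
    (continuousOn_const.mul (hPX.mul hJcB)).integrableOn_compact hcBc
  set σ : ℝ := ((SignType.sign (Jr X y₀) : ℤ) : ℝ) with hσ
  have hσJ : ∀ y ∈ cB, Jr X y = σ * |Jr X y| := by
    intro y hy
    have h1 := (hsub y hy).2.2.2.2
    rw [hσ, ← h1]
    rcases lt_trichotomy (Jr X y) 0 with h | h | h
    · rw [sign_neg h, abs_of_neg h]; simp
    · rw [h]; simp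
    · rw [sign_pos h, abs_of_pos h]; simp
  have hm1 : ∫ y in cB, χ y₀ * (P (fun a => X a y) * Jr X y) = χ y₀ * σ := by
    rw [integral_const_mul]
    congr 1
    calc ∫ y in cB, P (fun a => X a y) * Jr X y
        = ∫ y in cB, σ * (P (fun a => X a y) * |Jr X y|) := by
          refine setIntegral_congr_fun hcBm fun y hy => ?_
          rw [hσJ y hy, abs_mul, abs_abs]
          have h2 : σ * |Jr X y| = Jr X y := (hσJ y hy).symm
          have h3 : |σ| * |Jr X y| = |Jr X y| := by
            rw [← abs_abs (Jr X y), ← abs_mul, abs_abs, h2]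
          rw [h3]
          ring
      _ = σ := by rw [integral_const_mul, hmass, mul_one]
  have hgoal : (∫ y in cB, χ y * ((∏ a, ψ (X a y - s a)) * Jr X y)) - χ y₀ * σ =
      ∫ y in cB, (χ y - χ y₀) * (P (fun a => X a y) * Jr X y) := by
    rw [← hm1, ← integral_sub hi2 hi3]
    refine setIntegral_congr_fun hcBm fun y _ => ?_
    simp only [hP]
    ring
  rw [hgoal]
  have hb : ∀ y ∈ cB, ‖(χ y - χ y₀) * (P (fun a => X a y) * Jr X y)‖ ≤
      ε * (P (fun a => X a y) * |Jr X y|) := by
    intro y hy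
    rw [norm_mul, norm_mul, Real.norm_eq_abs, Real.norm_eq_abs, Real.norm_eq_abs,
      abs_of_nonneg (hP0 _)]
    exact mul_le_mul_of_nonneg_right (hsub y hy).2.2.1 (mul_nonneg (hP0 _) (abs_nonneg _))
  calc |∫ y in cB, (χ y - χ y₀) * (P (fun a => X a y) * Jr X y)|
      = ‖∫ y in cB, (χ y - χ y₀) * (P (fun a => X a y) * Jr X y)‖ := (Real.norm_eq_abs _).symm
    _ ≤ ∫ y in cB, ‖(χ y - χ y₀) * (P (fun a => X a y) * Jr X y)‖ :=
        norm_integral_le_integral_norm _
    _ ≤ ∫ y in cB, ε * (P (fun a => X a y) * |Jr X y|) := by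
        refine setIntegral_mono_on ?_ (hi1.const_mul ε) hcBm hb
        exact (((hχ.continuousOn.sub continuousOn_const).mul
          (hPX.mul hJcB)).integrableOn_compact hcBc).norm
    _ = ε := by rw [integral_const_mul, hmass, mul_one]

end

end Pool.Agent.RAT
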