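import Pool.Agent.Lib.RAT.Defs

/-!
# Tank RAT, row LQ: the rational structure of `H_{2n}(A, ℂ)` (helper92)
-/

set_option autoImplicit false

open Complex Pool.Agent.CMN Pool.Agent.HCM NumberField

namespace Pool.Agent.RAT

noncomputable section

namespace LQx

variable {n : ℕ} {ι : Type} {K : ι → Type} [∀ i, Field (K i)] [∀ i, NumberField (K i)]

/-- Indices of the rational basis. -/
abbrev Bx (K : ι → Type) [∀ i, Field (K i)] [∀ i, NumberField (K i)] : Type :=
  Σ i, Module.Free.ChooseBasisIndex ℤ (𝓞 (K i))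

/-- The rational coordinates. -/
def lam (s : Bx K) : (Idx K → ℂ) →ₗ[ℂ] ℂ :=
  (Finsupp.lapply s.2) ∘ₗ (canonicalEmbedding.latticeBasis (K s.1)).repr.toLinearMap ∘ₗ
    (LinearMap.funLeft ℂ ℂ (fun τ : K s.1 →+* ℂ => (⟨s.1, τ⟩ : Idx K)))

theorem lam_emb (s : Bx K) (x : ∀ i, K i) :
    lam s (fun t => t.2 (x t.1)) = (((integralBasis (K s.1)).repr (x s.1) s.2 : ℚ) : ℂ) := by
  have h := canonicalEmbedding.integralBasis_repr_apply (K := K s.1) (x s.1) s.2
  rw [← h]
  rfl

variable [Fintype ι]

open Classical in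
/-- The coefficients of `lam`. -/
def cf (s : Bx K) (t : Idx K) : ℂ := lam s (fun t' => if t = t' then 1 else 0)

theorem lam_eq (s : Bx K) (F : Idx K → ℂ) : lam s F = ∑ t, cf s t * F t := by
  classical
  rw [LinearMap.pi_apply_eq_sum_univ (lam s) F]
  refine Finset.sum_congr rfl fun t _ => ?_
  rw [smul_eq_mul, mul_comm]
  congr 1

theorem exists_p (t : Idx K) : ∃ p : Bx K → ℂ, ∀ F : Idx K → ℂ, F t = ∑ s, p s * lam s F := by
  classical
  obtain ⟨i, τ⟩ := t
  refine ⟨fun s => if h : s.1 = i then τ (integralBasis (K i) (h ▸ s.2)) else 0, fun F => ?_⟩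
  rw [Fintype.sum_sigma, Finset.sum_eq_single i]
  · have h1 := congrFun ((canonicalEmbedding.latticeBasis (K i)).sum_repr
      (fun τ => F ⟨i, τ⟩)) τ
    simp only [Finset.sum_apply, Pi.smul_apply, smul_eq_mul] at h1
    rw [← h1]
    refine Finset.sum_congr rfl fun j _ => ?_
    beta_reduce
    rw [dif_pos rfl, mul_comm]
    congr 1
    rw [canonicalEmbedding.latticeBasis_apply, canonicalEmbedding.apply_at]
  · intro i' _ hi
    refine Finset.sum_eq_zero fun j _ => ?_
    beta_reduce
    rw [dif_neg hi, zero_mul]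
  · intro h
    exact absurd (Finset.mem_univ _) h

/-- The transformation to rational coordinates. -/
def TT (v : (Two n → Idx K) → ℂ) (s : Two n → Bx K) : ℂ :=
  ∑ t : Two n → Idx K, (∏ a, cf (s a) (t a)) * v t

theorem TT_inj {v v' : (Two n → Idx K) → ℂ} (h : TT v = TT v') : v = v' := by
  classical
  choose P hP using fun t : Idx K => exists_p t
  have hδ : ∀ t t' : Idx K, ∑ s, P t s * cf s t' = if t = t' then 1 else 0 := by
    intro t t'
    have h1 := hP t (fun x => if t' = x then 1 else 0)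
    rw [show (if t = t' then (1 : ℂ) else 0) = if t' = t then 1 else 0 by simp only [eq_comm]]
    rw [h1]
    exact Finset.sum_congr rfl fun s _ => rfl
  have key : ∀ (v : (Two n → Idx K) → ℂ) (t : Two n → Idx K),
      v t = ∑ s : Two n → Bx K, (∏ a, P (t a) (s a)) * TT v s := by
    intro v t
    have h1 : ∀ s : Two n → Bx K, (∏ a, P (t a) (s a)) * TT v s =
        ∑ t' : Two n → Idx K, (∏ a, P (t a) (s a) * cf (s a) (t' a)) * v t' := by
      intro s
      unfold TT
      rw [Finset.mul_sum]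
      refine Finset.sum_congr rfl fun t' _ => ?_
      rw [Finset.prod_mul_distrib]
      ring
    simp only [h1]
    rw [Finset.sum_comm]
    have h2 : ∀ t' : Two n → Idx K,
        ∑ s : Two n → Bx K, (∏ a, P (t a) (s a) * cf (s a) (t' a)) * v t' =
          (if t = t' then 1 else 0) * v t' := by
      intro t'
      rw [← Finset.sum_mul]
      congr 1
      have h3 := Finset.prod_univ_sum (fun _ : Two n => (Finset.univ : Finset (Bx K)))
        (fun a s => P (t a) s * cf s (t' a))
      rw [Fintype.piFinset_univ] at h3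
      rw [← h3]
      simp only [hδ]
      rw [Finset.prod_boole]
      congr 1
      simp only [Finset.mem_univ, true_implies, funext_iff]
    simp only [h2, ite_mul, one_mul, zero_mul]
    rw [Finset.sum_ite_eq, if_pos (Finset.mem_univ _)]
  ext t
  rw [key v t, key v' t, h]

theorem TT_add (v v' : (Two n → Idx K) → ℂ) (s : Two n → Bx K) :
    TT (v + v') s = TT v s + TT v' s := by
  simp only [TT, Pi.add_apply, mul_add, Finset.sum_add_distrib]

theorem TT_smul (c : ℂ) (v : (Two n → Idx K) → ℂ) (s : Two n → Bx K) :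
    TT (c • v) s = c * TT v s := by
  simp only [TT, Pi.smul_apply, smul_eq_mul, Finset.mul_sum]
  refine Finset.sum_congr rfl fun t _ => ?_
  ring

theorem TT_sum {κ : Type} [Fintype κ] (c : κ → ℂ) (v : κ → (Two n → Idx K) → ℂ)
    (s : Two n → Bx K) : TT (∑ i, c i • v i) s = ∑ i, c i * TT (v i) s := by
  simp only [TT, Finset.sum_apply, Pi.smul_apply, smul_eq_mul, Finset.mul_sum]
  rw [Finset.sum_comm]
  refine Finset.sum_congr rfl fun i _ => Finset.sum_congr rfl fun t _ => ?_
  ring

theorem TT_torus (x : Two n → ∀ i, K i) (s : Two n → Bx K) :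
    ∃ q : ℚ, TT (torusClass x) s = q := by
  classical
  refine ⟨Matrix.det (Matrix.of fun a b =>
    (integralBasis (K (s a).1)).repr (x b (s a).1) (s a).2), ?_⟩
  have h1 : ((Matrix.det (Matrix.of fun a b =>
      (integralBasis (K (s a).1)).repr (x b (s a).1) (s a).2) : ℚ) : ℂ) =
      Matrix.det (Matrix.of fun a b => ∑ t : Idx K, cf (s a) t * t.2 (x b t.1)) := by
    have h2 := RingHom.map_det (algebraMap ℚ ℂ) (Matrix.of fun a b =>
      (integralBasis (K (s a).1)).repr (x b (s a).1) (s a).2)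
    rw [eq_ratCast] at h2
    rw [h2]
    congr 1
    ext a b
    simp only [RingHom.mapMatrix_apply, Matrix.map_apply, Matrix.of_apply, eq_ratCast]
    rw [← lam_emb, lam_eq]
  rw [h1]
  have h3 : (Matrix.of fun a b => ∑ t : Idx K, cf (s a) t * t.2 (x b t.1)) =
      fun a => ∑ t : Idx K, cf (s a) t • fun b => t.2 (x b t.1) := by
    ext a b
    simp only [Matrix.of_apply, Finset.sum_apply, Pi.smul_apply, smul_eq_mul]
  have h4 := (Matrix.detRowAlternating (n := Two n) (R := ℂ)).toMultilinearMap.map_sum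
    (fun a (t : Idx K) => cf (s a) t • fun b => t.2 (x b t.1))
  rw [h3]
  change _ = (Matrix.detRowAlternating (n := Two n) (R := ℂ)).toMultilinearMap _
  rw [h4]
  unfold TT
  refine Finset.sum_congr rfl fun t _ => ?_
  rw [(Matrix.detRowAlternating (n := Two n) (R := ℂ)).toMultilinearMap.map_smul_univ]
  rfl

theorem TT_rat {v : (Two n → Idx K) → ℂ} (hv : v ∈ HQ K n) (s : Two n → Bx K) :
    ∃ q : ℚ, TT v s = q := by
  unfold HQ at hv
  induction hv using Submodule.span_induction with
  | mem v hv =>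
    obtain ⟨x, rfl⟩ := hv
    exact TT_torus x s
  | zero => exact ⟨0, by simp [TT]⟩
  | add u v _ _ hu hv =>
    obtain ⟨q, hq⟩ := hu
    obtain ⟨r, hr⟩ := hv
    exact ⟨q + r, by rw [TT_add, hq, hr]; push_cast; rfl⟩
  | smul c v _ hv =>
    obtain ⟨q, hq⟩ := hv
    refine ⟨c * q, ?_⟩
    have h1 : c • v = (c : ℂ) • v := by
      ext t
      simp [Rat.smul_def]
    rw [h1, TT_smul, hq]
    push_cast
    rfl

end LQx

open LQx in
theorem row_lq : RowLQ := by
  intro n ι _ K _ _ S u hS hu hsp
  classical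
  cases nonempty_fintype ι
  obtain ⟨π, hπ⟩ := (Algebra.linearMap ℚ ℂ).exists_leftInverse_of_injective
    (LinearMap.ker_eq_bot.2 (algebraMap ℚ ℂ).injective)
  have hπ1 : ∀ q : ℚ, π (q : ℂ) = q := fun q => by
    have := LinearMap.congr_fun hπ q
    simpa using this
  have hπ2 : ∀ (c : ℂ) (q : ℚ), π (c * (q : ℂ)) = π c * q := by
    intro c q
    have : c * (q : ℂ) = q • c := by rw [Rat.smul_def, mul_comm]
    rw [this, map_smul, smul_eq_mul, mul_comm]
  obtain ⟨m, c, g, hg⟩ := Submodule.mem_span_set'.1 hsp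
  have hu' : u = ∑ i, ((π (c i) : ℚ) : ℂ) • (g i : (Two n → Idx K) → ℂ) := by
    apply TT_inj
    ext s
    rw [TT_sum]
    choose q hq using fun i : Fin m => TT_rat (hS _ (g i).2) s
    obtain ⟨r, hr⟩ := TT_rat hu s
    have h1 : (r : ℂ) = ∑ i, c i * (q i : ℂ) := by
      rw [← hr, ← hg, TT_sum]
      simp only [hq]
    have h2 := congrArg π h1
    rw [hπ1, map_sum] at h2
    simp only [hπ2] at h2
    rw [hr, h2]
    simp only [hq]
    push_cast
    rfl
  rw [hu']
  refine Submodule.sum_mem _ fun i _ => ?_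
  have h1 : ((π (c i) : ℚ) : ℂ) • (g i : (Two n → Idx K) → ℂ) =
      (π (c i)) • (g i : (Two n → Idx K) → ℂ) := by
    ext t
    simp [Rat.smul_def]
  rw [h1]
  exact Submodule.smul_mem _ _ (Submodule.subset_span (g i).2)

end

end Pool.Agent.RAT
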