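import Pool.Agent.Lib.RAT.Defs

/-!
# Tank RAT, rows M and FIN (helper64): assembly
-/

set_option autoImplicit false

open scoped ComplexConjugate Matrix Topology
open Complex MeasureTheory Pool.Agent.CMN Pool.Agent.HCM

namespace Pool.Agent.RAT

noncomputable section

/-- Row M. -/
theorem row_m (hT : RowT) (hB : RowB) (hSA : RowSA) (hL : RowL) (hO : RowO) (hJ : RowJ) :
    RowM := by
  intro n k Γ χ X m hPD hC hW hX hper
  have hopen : IsOpen (ball k) := Pool.CMN.Jac.isOpen_Bl k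
  have hX1 : ∀ a, ContDiffOn ℝ 1 (X a) (ball k) := fun a =>
    (hX a).of_le (by norm_num)
  obtain ⟨s, hs⟩ := hSA n (ball k) X hopen hX1
  obtain ⟨hfin, happ⟩ := hL n (ball k) χ X s hopen hW.cont hW.comp hW.supp hX1 hs
  have hinv : ∀ g ∈ Γ, ∀ y ∈ ball k, y ∈ fib X s → actC g y ∈ fib X s ∧
      ((SignType.sign (Jr X (actC g y)) : ℤ)) = ((SignType.sign (Jr X y) : ℤ)) := by
    intro g hg y hy hyf
    obtain ⟨m', hm'⟩ := hyf
    refine ⟨⟨fun a => m' a + m a g, fun a => ?_⟩, ?_⟩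
    · rw [hper a g hg y hy, hm' a]
      push_cast
      ring
    · have hgy : actC g y ∈ ball k := Pool.Agent.CMN.JB.actC_mem hPD.sg (hPD.isU g hg) hy
      obtain ⟨h1, h2⟩ := hJ n k g X y hPD.sg (hPD.isU g hg) hy fun a =>
        ((hX a).contDiffAt (hopen.mem_nhds hgy)).differentiableAt two_ne_zero
      have h3 : Jr (fun a z => X a (actC g z)) y = Jr X y := by
        unfold Jr
        congr 1
        ext a b
        simp only [Matrix.of_apply]
        have h4 : (fun z => X a (actC g z)) =ᶠ[𝓝 y] fun z => X a z + m a g := by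
          filter_upwards [hopen.mem_nhds hy] with z hz
          exact hper a g hg z hz
        rw [h4.fderiv_eq, fderiv_add_const]
      rw [h3] at h2
      rw [← h2]
      rcases lt_trichotomy (Jr X (actC g y)) 0 with h | h | h
      · rw [sign_neg h, sign_neg (mul_neg_of_pos_of_neg h1 h)]
      · rw [h, mul_zero]
      · rw [sign_pos h, sign_pos (mul_pos h1 h)]
  obtain ⟨q, hq⟩ := hO n k Γ χ (fib X s) (fun y => (SignType.sign (Jr X y) : ℤ)) hPD hW hinv hfin
  refine ⟨q, ?_⟩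
  refine eq_of_forall_dist_le fun ε hε => ?_
  obtain ⟨δ, hδ, hδψ⟩ := happ ε hε
  obtain ⟨ψ, hψ⟩ := hB δ hδ
  have h5 := hδψ ψ hψ
  rw [hT n k Γ χ X m δ ψ s hPD hC hW hX hper hψ, hq] at h5
  rw [Real.dist_eq]
  exact h5

/-- Row FIN: the Hodge conjecture with rational coefficients. -/
theorem hodgeQ_of (h : HODGE) (hpd : PDX) (hC : RowC) (hLQ : RowLQ) : HODGEQ := by
  intro n ι _ K _ _ _ Φ hn hΦ u hu hH
  have h1 := h n ι K Φ hn hΦ u hu hH
  have hc : (-2 * I) ^ n ≠ 0 := pow_ne_zero _ (by simp [I_ne_zero])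
  refine hLQ n ι K _ u (fun w hw => hw.1) hu ?_
  refine Submodule.span_induction (fun v hv => ?_) (Submodule.zero_mem _)
    (fun x y _ _ hx hy => Submodule.add_mem _ hx hy) (fun a x _ hx => Submodule.smul_mem _ a hx) h1
  have h2 : (-2 * I) ^ n • v ∈ HQ K n := by
    obtain ⟨F, _, _, v₁, D, h, Γ, χ, f, ℓ, hR, hDi, hD0, hS, hA, hCo, hW, hM, rfl⟩ := hv
    have := hR
    have hG : Good v₁ D h := ⟨hDi, hD0, hS.pos, hS.last, hS.neg⟩
    exact hC n ι K Φ (ev v₁ h) Γ χ f ℓ ⟨Pool.Agent.CMN.JB.sg_of hG,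
      fun g hg => Pool.Agent.CMN.JB.isU_of_mem hA hg, hpd F n v₁ D h Γ hG hA⟩ hCo hW hΦ hM
  have h3 : v = ((-2 * I) ^ n)⁻¹ • ((-2 * I) ^ n • v) := by
    rw [smul_smul, inv_mul_cancel₀ hc, one_smul]
  rw [h3]
  exact Submodule.smul_mem _ _ (Submodule.subset_span ⟨h2, v, hv, rfl⟩)

end

end Pool.Agent.RAT
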