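import Pool.Agent.Lib.RAT.Defs

/-!
# RAT, row N: a Jacobian determinant is a null Lagrangian (helper74)

The integral of a Jacobian determinant with one compactly supported entry vanishes: expand the
determinant over permutations, integrate by parts in the compactly supported entry, and pair the
permutations `σ` and `σ * swap a₀ a`; second derivatives are symmetric.
-/

set_option autoImplicit false

open scoped Topology
open MeasureTheory Pool.Agent.HCM

namespace Pool.Agent.RAT

namespace Nx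

variable {ι E : Type} [Fintype ι] [DecidableEq ι] [NormedAddCommGroup E] [NormedSpace ℝ E]

/-- The product of the derivatives of all entries but one. -/
noncomputable def G (a₀ : ι) (Y : ι → E → ℝ) (e : ι → E) (s : Equiv.Perm ι) (y : E) : ℝ :=
  ∏ a ∈ Finset.univ.erase a₀, fderiv ℝ (Y a) y (e (s a))

theorem contDiffOn_fderiv {B : Set E} (hB : IsOpen B) {Y : E → ℝ} (hY : ContDiffOn ℝ 2 Y B)
    (v : E) : ContDiffOn ℝ 1 (fun y => fderiv ℝ Y y v) B := by
  have h1 : ContDiffOn ℝ 1 (fderiv ℝ Y) B := hY.fderiv_of_isOpen hB (by norm_num)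
  exact h1.clm_apply contDiffOn_const

theorem contDiffOn_G {B : Set E} (hB : IsOpen B) (a₀ : ι) {Y : ι → E → ℝ} (e : ι → E)
    (s : Equiv.Perm ι) (hY : ∀ a, ContDiffOn ℝ 2 (Y a) B) : ContDiffOn ℝ 1 (G a₀ Y e s) B := by
  unfold G
  exact contDiffOn_prod fun a _ => contDiffOn_fderiv hB (hY a) _

theorem fderiv_G {B : Set E} (hB : IsOpen B) (a₀ : ι) {Y : ι → E → ℝ} (e : ι → E)
    (s : Equiv.Perm ι) (hY : ∀ a, ContDiffOn ℝ 2 (Y a) B) {y : E} (hy : y ∈ B) :
    fderiv ℝ (G a₀ Y e s) y (e (s a₀)) = ∑ a ∈ Finset.univ.erase a₀,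
      (∏ c ∈ (Finset.univ.erase a₀).erase a, fderiv ℝ (Y c) y (e (s c))) *
        fderiv ℝ (fderiv ℝ (Y a)) y (e (s a₀)) (e (s a)) := by
  have h1 : ∀ a, DifferentiableAt ℝ (fderiv ℝ (Y a)) y := by
    intro a
    have h1 : ContDiffOn ℝ 1 (fderiv ℝ (Y a)) B := (hY a).fderiv_of_isOpen hB (by norm_num)
    exact (h1.contDiffAt (hB.mem_nhds hy)).differentiableAt (by norm_num)
  have h2 : ∀ a, HasFDerivAt (fun z => fderiv ℝ (Y a) z (e (s a)))
      ((fderiv ℝ (fderiv ℝ (Y a)) y).flip (e (s a))) y := by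
    intro a
    have h3 := (h1 a).hasFDerivAt.clm_apply (hasFDerivAt_const (e (s a)) y)
    simpa using h3
  have h3 : HasFDerivAt (G a₀ Y e s) (∑ a ∈ Finset.univ.erase a₀,
      (∏ c ∈ (Finset.univ.erase a₀).erase a, fderiv ℝ (Y c) y (e (s c))) •
        (fderiv ℝ (fderiv ℝ (Y a)) y).flip (e (s a))) y :=
    HasFDerivAt.finsetProd (u := Finset.univ.erase a₀) fun a _ => h2 a
  rw [h3.fderiv]
  simp only [FunLike.coe_sum, Finset.sum_apply, FunLike.coe_smul,
    Pi.smul_apply, smul_eq_mul, ContinuousLinearMap.flip_apply]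

theorem sum_zero {B : Set E} (hB : IsOpen B) (a₀ : ι) {Y : ι → E → ℝ} (e : ι → E)
    (hY : ∀ a, ContDiffOn ℝ 2 (Y a) B) {y : E} (hy : y ∈ B) :
    ∑ s : Equiv.Perm ι, ((Equiv.Perm.sign s : ℤ) : ℝ) *
      fderiv ℝ (G a₀ Y e s) y (e (s a₀)) = 0 := by
  have h0 : ∀ s : Equiv.Perm ι, fderiv ℝ (G a₀ Y e s) y (e (s a₀)) = _ :=
    fun s => fderiv_G hB a₀ e s hY hy
  simp_rw [h0, Finset.mul_sum]
  rw [Finset.sum_comm]
  apply Finset.sum_eq_zero
  intro a ha
  have hne : a ≠ a₀ := (Finset.mem_erase.mp ha).1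
  have hsymm : ∀ u v, fderiv ℝ (fderiv ℝ (Y a)) y u v = fderiv ℝ (fderiv ℝ (Y a)) y v u := by
    have h1 : IsSymmSndFDerivAt ℝ (Y a) y :=
      ((hY a).contDiffAt (hB.mem_nhds hy)).isSymmSndFDerivAt (by simp)
    exact fun u v => h1 u v
  apply Finset.sum_involution (fun s _ => s * Equiv.swap a₀ a)
  · intro s _
    have h1 : (∏ c ∈ (Finset.univ.erase a₀).erase a,
        fderiv ℝ (Y c) y (e ((s * Equiv.swap a₀ a) c))) =
        ∏ c ∈ (Finset.univ.erase a₀).erase a, fderiv ℝ (Y c) y (e (s c)) := by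
      apply Finset.prod_congr rfl
      intro c hc
      have hc1 : c ≠ a := (Finset.mem_erase.mp hc).1
      have hc2 : c ≠ a₀ := (Finset.mem_erase.mp (Finset.mem_erase.mp hc).2).1
      rw [Equiv.Perm.mul_apply, Equiv.swap_apply_of_ne_of_ne hc2 hc1]
    rw [h1]
    simp only [Equiv.Perm.mul_apply, Equiv.swap_apply_left, Equiv.swap_apply_right, map_mul,
      Equiv.Perm.sign_swap hne.symm]
    rw [hsymm (e (s a)) (e (s a₀))]
    push_cast
    ring
  · intro s _ _ h
    have h1 : Equiv.swap a₀ a = 1 := by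
      have := mul_left_cancel (a := s) (b := Equiv.swap a₀ a) (c := 1) (by rw [h, mul_one])
      exact this
    exact hne (by
      have h2 := congrArg (fun p : Equiv.Perm ι => p a₀) h1
      simpa using h2)
  · intro s _
    exact Finset.mem_univ _
  · intro s _
    rw [mul_assoc, Equiv.swap_mul_self, mul_one]

variable [MeasurableSpace E] [BorelSpace E] [FiniteDimensional ℝ E] {μ : Measure E}
  [μ.IsAddHaarMeasure]

omit [NormedSpace ℝ E] [BorelSpace E] [FiniteDimensional ℝ E] [μ.IsAddHaarMeasure]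
  [MeasurableSpace E] in
theorem cont_mul {B : Set E} (hB : IsOpen B) {F p : E → ℝ} (hF : ContinuousOn F B)
    (hp : Continuous p) (ht : tsupport p ⊆ B) : Continuous fun x => F x * p x := by
  apply continuous_of_tsupport
  intro x hx
  have hx1 : x ∈ tsupport p := closure_mono (Function.support_mul_subset_right _ _) hx
  exact (hF.continuousAt (hB.mem_nhds (ht hx1))).mul hp.continuousAt

omit [NormedSpace ℝ E] [FiniteDimensional ℝ E] in
theorem integrable_mul {B : Set E} (hB : IsOpen B) {F p : E → ℝ} (hF : ContinuousOn F B)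
    (hp : Continuous p) (hc : HasCompactSupport p) (ht : tsupport p ⊆ B) :
    Integrable (fun x => F x * p x) μ :=
  (cont_mul hB hF hp ht).integrable_of_hasCompactSupport hc.mul_left

theorem parts {B : Set E} (hB : IsOpen B) {F p : E → ℝ} (v : E) (hF : ContDiffOn ℝ 1 F B)
    (hp : ContDiff ℝ 2 p) (hc : HasCompactSupport p) (ht : tsupport p ⊆ B) :
    ∫ x, F x * fderiv ℝ p x v ∂μ = - ∫ x, fderiv ℝ F x v * p x ∂μ := by
  have hp1 : ContDiff ℝ 1 (fderiv ℝ p) := hp.fderiv_right (by norm_num)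
  have hc1 : HasCompactSupport fun x => fderiv ℝ p x v := hc.fderiv_apply ℝ v
  have ht1 : tsupport (fun x => fderiv ℝ p x v) ⊆ B :=
    (tsupport_fderiv_apply_subset ℝ v).trans ht
  have hcont : ContinuousOn (fun x => fderiv ℝ F x v) B := by
    have h1 : ContinuousOn (fderiv ℝ F) B := hF.continuousOn_fderiv_of_isOpen hB (by norm_num)
    exact h1.clm_apply continuousOn_const
  apply integral_mul_fderiv_eq_neg_fderiv_mul_of_integrable
  · exact integrable_mul hB hcont hp.continuous hc ht
  · exact integrable_mul hB hF.continuousOn (hp1.continuous.clm_apply continuous_const) hc1 ht1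
  · exact integrable_mul hB hF.continuousOn hp.continuous hc ht
  · intro x hx
    exact (hF.contDiffAt (hB.mem_nhds (ht hx))).differentiableAt (by norm_num)
  · intro x _
    exact hp.differentiable (by norm_num) x

theorem main {B : Set E} (hB : IsOpen B) (a₀ : ι) {Y : ι → E → ℝ} (e : ι → E)
    (hY : ∀ a, ContDiffOn ℝ 2 (Y a) B) {p : E → ℝ} (hp : ContDiff ℝ 2 p)
    (hc : HasCompactSupport p) (ht : tsupport p ⊆ B) :
    ∫ y, Matrix.det (Matrix.of fun a b => fderiv ℝ (Function.update Y a₀ p a) y (e b)) ∂μ = 0 := by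
  have h1 : ∀ y, Matrix.det (Matrix.of fun a b => fderiv ℝ (Function.update Y a₀ p a) y (e b)) =
      ∑ s : Equiv.Perm ι, ((Equiv.Perm.sign s : ℤ) : ℝ) *
        (G a₀ Y e s y * fderiv ℝ p y (e (s a₀))) := by
    intro y
    rw [← Matrix.det_transpose, Matrix.det_apply']
    apply Finset.sum_congr rfl
    intro s _
    congr 1
    simp only [Matrix.transpose_apply, Matrix.of_apply]
    rw [← Finset.prod_erase_mul _ _ (Finset.mem_univ a₀), Function.update_self]
    congr 1
    unfold G
    apply Finset.prod_congr rfl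
    intro a ha
    rw [Function.update_of_ne (Finset.mem_erase.mp ha).1]
  have hp1 : ContDiff ℝ 1 (fderiv ℝ p) := hp.fderiv_right (by norm_num)
  simp_rw [h1]
  rw [integral_finsetSum]
  · have h2 : ∀ s : Equiv.Perm ι, ∫ y, ((Equiv.Perm.sign s : ℤ) : ℝ) *
        (G a₀ Y e s y * fderiv ℝ p y (e (s a₀))) ∂μ =
        - ∫ y, (((Equiv.Perm.sign s : ℤ) : ℝ) * fderiv ℝ (G a₀ Y e s) y (e (s a₀))) * p y ∂μ := by
      intro s
      rw [integral_const_mul, parts hB (e (s a₀)) (contDiffOn_G hB a₀ e s hY) hp hc ht, mul_neg,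
        ← integral_const_mul]
      simp_rw [mul_assoc]
    simp_rw [h2]
    rw [Finset.sum_neg_distrib, ← integral_finsetSum]
    · rw [neg_eq_zero]
      apply integral_eq_zero_of_ae
      filter_upwards with y
      rw [← Finset.sum_mul, Pi.zero_apply]
      by_cases hy : y ∈ B
      · rw [sum_zero hB a₀ e hY hy, zero_mul]
      · have : p y = 0 := image_eq_zero_of_notMem_tsupport fun h => hy (ht h)
        rw [this, mul_zero]
    · intro s _
      apply integrable_mul hB _ hp.continuous hc ht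
      apply ContinuousOn.mul continuousOn_const
      have h1 : ContinuousOn (fderiv ℝ (G a₀ Y e s)) B :=
        (contDiffOn_G hB a₀ e s hY).continuousOn_fderiv_of_isOpen hB (by norm_num)
      exact h1.clm_apply continuousOn_const
  · intro s _
    apply Integrable.const_mul
    apply integrable_mul hB (contDiffOn_G hB a₀ e s hY).continuousOn
      (hp1.continuous.clm_apply continuous_const) (hc.fderiv_apply ℝ _)
      ((tsupport_fderiv_apply_subset ℝ _).trans ht)

end Nx

/-- Row N. -/
theorem row_n : RowN := by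
  intro n B Y a₀ φ hB hφ hc ht hY
  unfold Jr
  exact Nx.main hB a₀ bas hY hφ hc ht

end Pool.Agent.RAT
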