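import Pool.Agent.Lib.RAT.Defs

/-!
# Row O: summation over orbits
-/

set_option autoImplicit false

open scoped ComplexConjugate Matrix Topology
open Complex MeasureTheory Pool.Agent.CMN Pool.Agent.HCM

namespace Pool.Agent.RAT

open Classical in
/-- A sum of rational numbers is rational. -/
theorem Ox.sum_rat {α : Type*} (T : Finset α) (f : α → ℝ)
    (h : ∀ a ∈ T, ∃ q : ℚ, f a = q) : ∃ q : ℚ, ∑ a ∈ T, f a = q := by
  induction T using Finset.induction_on with
  | empty => exact ⟨0, by simp⟩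
  | insert a T ha ih =>
    obtain ⟨q, hq⟩ := h a (Finset.mem_insert_self a T)
    obtain ⟨q', hq'⟩ := ih fun b hb => h b (Finset.mem_insert_of_mem hb)
    refine ⟨q + q', ?_⟩
    rw [Finset.sum_insert ha, hq, hq']
    push_cast
    rfl

/-- Row O. -/
theorem row_o : RowO := by
  classical
  intro n k Γ χ Z σ hP hχ hσ hfin
  have hs := hP.sg
  let π : (Fin n → ℂ) → Set (Fin n → ℂ) := fun y => {z | ∃ g : Γ, actC g.1 y = z}
  set F := hfin.toFinset with hFdef
  have hF : ∀ y, y ∈ F ↔ y ∈ tsupport χ ∧ y ∈ Z := by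
    intro y
    rw [hFdef, Set.Finite.mem_toFinset]
    rfl
  have hFb : ∀ y ∈ F, y ∈ ball k := fun y hy => hχ.supp ((hF y).1 hy).1
  have hinv : ∀ y ∈ ball k, ∀ g : Γ, actC (g⁻¹ : Γ).1 (actC g.1 y) = y := by
    intro y hy g
    rw [← JB.actC_mul hs (hP.isU g.1 g.2) hy]
    have e : (g⁻¹ : Γ).1 * g.1 = 1 := by simp
    rw [e, JB.actC_one]
  have hπ : ∀ y ∈ ball k, ∀ g : Γ, π (actC g.1 y) = π y := by
    intro y hy g
    ext z
    constructor
    · rintro ⟨g', rfl⟩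
      exact ⟨g' * g, JB.actC_mul hs (hP.isU g.1 g.2) hy⟩
    · rintro ⟨g', rfl⟩
      refine ⟨g' * g⁻¹, ?_⟩
      rw [Subgroup.coe_mul, JB.actC_mul hs (hP.isU _ (g⁻¹).2)
        (JB.actC_mem hs (hP.isU g.1 g.2) hy), hinv y hy g]
  have hself : ∀ y, y ∈ π y := fun y => ⟨1, JB.actC_one y⟩
  have hG : ∀ y ∈ F, {g : Γ | actC g.1 y ∈ tsupport χ}.Finite := by
    intro y hy
    refine (hP.pd (tsupport χ) hχ.comp hχ.supp).subset ?_
    intro g hg
    exact ⟨y, ((hF y).1 hy).1, hg⟩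
  have key : ∀ y ∈ F, ∃ s : ℕ, (s : ℝ) * ∑ z ∈ F with π z = π y, χ z = 1 := by
    intro y hy
    have hyb := hFb y hy
    have hGm : ∀ g : Γ, g ∈ (hG y hy).toFinset ↔ actC g.1 y ∈ tsupport χ := by
      intro g
      rw [Set.Finite.mem_toFinset]
      rfl
    have h1 : ∑ g ∈ (hG y hy).toFinset, χ (actC g.1 y) = 1 := by
      have h := hχ.sum y hyb
      refine (hasSum_sum_of_ne_finset_zero ?_).unique h
      intro g hg
      by_contra hne
      exact hg ((hGm g).2 (subset_tsupport _ hne))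
    refine ⟨((hG y hy).toFinset.filter fun g => actC g.1 y = y).card, ?_⟩
    have h2 := Finset.sum_fiberwise_of_maps_to (s := (hG y hy).toFinset)
      (t := F.filter fun z => π z = π y) (g := fun g : Γ => actC g.1 y) (by
        intro g hg
        rw [Finset.mem_filter]
        exact ⟨(hF _).2 ⟨(hGm g).1 hg, (hσ g.1 g.2 y hyb ((hF y).1 hy).2).1⟩, hπ y hyb g⟩)
      (fun g => χ (actC g.1 y))
    rw [Finset.mul_sum, ← h1, ← h2]
    refine Finset.sum_congr rfl fun z hz => ?_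
    rw [Finset.mem_filter] at hz
    obtain ⟨g₀, hg₀⟩ : z ∈ π y := hz.2 ▸ hself z
    have h3 : ∑ g ∈ (hG y hy).toFinset with actC g.1 y = z, χ (actC g.1 y) =
        ∑ g ∈ (hG y hy).toFinset with actC g.1 y = z, χ z := by
      refine Finset.sum_congr rfl fun g hg => ?_
      rw [(Finset.mem_filter.1 hg).2]
    rw [h3, Finset.sum_const, nsmul_eq_mul]
    congr 2
    refine Finset.card_nbij' (fun g => g₀ * g) (fun g => g₀⁻¹ * g) ?_ ?_ ?_ ?_
    · intro g hg
      rw [Finset.mem_coe, Finset.mem_filter] at hg ⊢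
      have e : actC (g₀ * g : Γ).1 y = z := by
        rw [Subgroup.coe_mul, JB.actC_mul hs (hP.isU g.1 g.2) hyb, hg.2, hg₀]
      refine ⟨(hGm _).2 ?_, e⟩
      rw [e]
      exact ((hF z).1 hz.1).1
    · intro g hg
      rw [Finset.mem_coe, Finset.mem_filter] at hg ⊢
      have e : actC (g₀⁻¹ * g : Γ).1 y = y := by
        rw [Subgroup.coe_mul, JB.actC_mul hs (hP.isU g.1 g.2) hyb, hg.2, ← hg₀]
        exact hinv y hyb g₀
      refine ⟨(hGm _).2 ?_, e⟩
      rw [e]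
      exact ((hF y).1 hy).1
    · intro g _
      simp
    · intro g _
      simp
  rw [finsum_mem_eq_finite_toFinset_sum _ hfin,
    ← Finset.sum_fiberwise_of_maps_to (s := F) (t := F.image π) (g := π)
      (fun y hy => Finset.mem_image_of_mem _ hy)]
  refine Ox.sum_rat _ _ fun ω hω => ?_
  obtain ⟨y, hy, rfl⟩ := Finset.mem_image.1 hω
  obtain ⟨s, hsum⟩ := key y hy
  have h4 : ∑ z ∈ F with π z = π y, χ z * (σ z : ℝ) =
      (∑ z ∈ F with π z = π y, χ z) * (σ y : ℝ) := by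
    rw [Finset.sum_mul]
    refine Finset.sum_congr rfl fun z hz => ?_
    rw [Finset.mem_filter] at hz
    obtain ⟨g₀, hg₀⟩ : z ∈ π y := hz.2 ▸ hself z
    have h5 := (hσ g₀.1 g₀.2 y (hFb y hy) ((hF y).1 hy).2).2
    rw [hg₀] at h5
    rw [h5]
  refine ⟨(s : ℚ)⁻¹ * (σ y : ℚ), ?_⟩
  rw [h4]
  have h6 : ∑ z ∈ F with π z = π y, χ z = (s : ℝ)⁻¹ := eq_inv_of_mul_eq_one_right hsum
  rw [h6]
  push_cast
  rfl

end Pool.Agent.RAT
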