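import Pool.Agent.Lib.RAT.Defs

/-!
# Tank RAT, row S: Stokes on the quotient (helper60)
-/

set_option autoImplicit false

open scoped ComplexConjugate Matrix Topology
open Complex MeasureTheory Pool.Agent.CMN Pool.Agent.HCM

namespace Pool.Agent.RAT

noncomputable section

namespace RS

variable {n : ℕ} {k : Fin (n + 1) → ℝ} {Γ : Subgroup (SLn n)}

/-- smoothness of the action -/
theorem contDiffAt_actC (hs : Pool.CMN.Jac.Sg k) {g : SLn n} (hg : Pool.CMN.Jac.IsU k g.1)
    {y : Fin n → ℂ} (hy : y ∈ ball k) : ContDiffAt ℝ 2 (actC g) y := by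
  have h1 : ∀ i, ContDiff ℝ 2 (fun z : Fin n → ℂ => (g.1 *ᵥ hat z) i) := by
    intro i
    have h2 : ∀ m : Fin (n + 1), ContDiff ℝ 2 (fun z : Fin n → ℂ => hat z m) := by
      intro m
      refine Fin.lastCases ?_ (fun j => ?_) m
      · simp only [hat_last]
        exact contDiff_const
      · simp only [hat_castSucc]
        exact contDiff_apply ℝ ℂ j
    have h3 : (fun z : Fin n → ℂ => (g.1 *ᵥ hat z) i) = fun z => ∑ m, g.1 i m * hat z m := rfl
    rw [h3]
    exact ContDiff.sum fun m _ => contDiff_const.mul (h2 m)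
  rw [contDiffAt_pi]
  intro j
  have h4 : (fun z : Fin n → ℂ => actC g z j) =
      fun z => (g.1 *ᵥ hat z) j.castSucc * ((g.1 *ᵥ hat z) (Fin.last n))⁻¹ := by
    funext z
    exact div_eq_mul_inv _ _
  rw [h4]
  exact (h1 j.castSucc).contDiffAt.mul
    ((h1 (Fin.last n)).contDiffAt.inv (JB.jf_ne' hs hg hy))

theorem Jr_congr {Y Z : Two n → (Fin n → ℂ) → ℝ} {y : Fin n → ℂ}
    (h : ∀ a, fderiv ℝ (Y a) y = fderiv ℝ (Z a) y) : Jr Y y = Jr Z y := by
  unfold Jr
  congr 1
  ext a b
  simp only [Matrix.of_apply]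
  rw [h]

/-- the Jacobian matrix -/
def Mt (Y : Two n → (Fin n → ℂ) → ℝ) (y : Fin n → ℂ) : Matrix (Two n) (Two n) ℝ :=
  Matrix.of fun a b => fderiv ℝ (Y a) y (bas b)

theorem Jr_update (Y : Two n → (Fin n → ℂ) → ℝ) (a₀ : Two n) (φ : (Fin n → ℂ) → ℝ)
    (y : Fin n → ℂ) : Jr (Function.update Y a₀ φ) y =
      ((Mt Y y).updateRow a₀ (fun b => fderiv ℝ φ y (bas b))).det := by
  unfold Jr
  congr 1
  ext a b
  rw [Matrix.of_apply]
  by_cases h : a = a₀
  · subst h
    rw [Matrix.updateRow_self, Function.update_self]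
  · rw [Matrix.updateRow_ne h, Function.update_of_ne h]
    rfl

theorem Jr_update_zero (Y : Two n → (Fin n → ℂ) → ℝ) (a₀ : Two n) {φ : (Fin n → ℂ) → ℝ}
    {y : Fin n → ℂ} (h : fderiv ℝ φ y = 0) : Jr (Function.update Y a₀ φ) y = 0 := by
  rw [Jr_update]
  refine Matrix.det_eq_zero_of_row_eq_zero a₀ fun b => ?_
  rw [Matrix.updateRow_self, h]
  rfl

theorem continuousOn_Jr {B : Set (Fin n → ℂ)} (hB : IsOpen B) {Y : Two n → (Fin n → ℂ) → ℝ}
    (hY : ∀ a, ContDiffOn ℝ 2 (Y a) B) : ContinuousOn (Jr Y) B := by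
  have h1 : ContinuousOn (fun y => (Matrix.of fun a b => fderiv ℝ (Y a) y (bas b) :
      Matrix (Two n) (Two n) ℝ)) B := by
    refine continuousOn_pi.2 fun a => continuousOn_pi.2 fun b => ?_
    exact ((hY a).continuousOn_fderiv_of_isOpen hB (by norm_num)).clm_apply continuousOn_const
  exact (continuous_id.matrix_det).comp_continuousOn h1

/-- gluing by zero -/
theorem contDiff_of_ts {B : Set (Fin n → ℂ)} (hB : IsOpen B) {φ : (Fin n → ℂ) → ℝ}
    (h : ContDiffOn ℝ 2 φ B) (hs : tsupport φ ⊆ B) : ContDiff ℝ 2 φ := by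
  rw [contDiff_iff_contDiffAt]
  intro y
  by_cases hy : y ∈ tsupport φ
  · exact h.contDiffAt (hB.mem_nhds (hs hy))
  · rw [notMem_tsupport_iff_eventuallyEq] at hy
    exact contDiffAt_const.congr_of_eventuallyEq hy

theorem fderiv_ts {φ : (Fin n → ℂ) → ℝ} {y : Fin n → ℂ} (hy : y ∉ tsupport φ) :
    fderiv ℝ φ y = 0 := by
  rw [notMem_tsupport_iff_eventuallyEq] at hy
  rw [hy.fderiv_eq]
  exact fderiv_const_apply _

/-- a smooth partition of unity -/
theorem exists_part (hLF : RowLF) (hpd : PD k Γ) (hco : Cocompact k Γ) :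
    ∃ κ : (Fin n → ℂ) → ℝ, ContDiff ℝ 2 κ ∧ HasCompactSupport κ ∧ tsupport κ ⊆ ball k ∧
      ∀ y ∈ ball k, ∃ s : Finset Γ, (∀ᶠ z in 𝓝 y, ∀ g ∉ s, κ (actC g.1 z) = 0) ∧
        ∀ᶠ z in 𝓝 y, ∑ g ∈ s, κ (actC g.1 z) = 1 := by
  have hopen : IsOpen (ball k) := isOpen_ball k
  obtain ⟨C, hC1, hC2, hC3⟩ := hco
  obtain ⟨V, hV1, hV2, hV3, hV4⟩ := exists_open_between_and_isCompact_closure hC1 hopen hC2
  obtain ⟨κ0, h1, h2, h3⟩ := hV1.exists_contDiff_support_eq (n := 2)
  have hts : tsupport κ0 = closure V := by rw [tsupport, h1]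
  have hcs : HasCompactSupport κ0 := by
    rw [HasCompactSupport, hts]
    exact hV4
  have hsub : tsupport κ0 ⊆ ball k := by
    rw [hts]
    exact hV3
  have h0 : ∀ y, 0 ≤ κ0 y := fun y => (h3 ⟨y, rfl⟩).1
  let k0 : (Fin n → ℂ) → ℝ := fun y => ∑' g : Γ, κ0 (actC g.1 y)
  have hk0 : ∀ y ∈ ball k, ∃ s : Finset Γ, (∀ᶠ z in 𝓝 y, ∀ g ∉ s, κ0 (actC g.1 z) = 0) ∧
      ∀ᶠ z in 𝓝 y, k0 z = ∑ g ∈ s, κ0 (actC g.1 z) := by
    intro y hy
    obtain ⟨s, hs⟩ := hLF n k Γ κ0 hpd hcs hsub y hy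
    refine ⟨s, hs, ?_⟩
    filter_upwards [hs] with z hz
    exact tsum_eq_sum hz
  have hk1 : ∀ y ∈ ball k, ContDiffAt ℝ 2 k0 y := by
    intro y hy
    obtain ⟨s, -, hs⟩ := hk0 y hy
    refine ContDiffAt.congr_of_eventuallyEq ?_ hs
    exact ContDiffAt.sum fun g _ => h2.contDiffAt.comp y (contDiffAt_actC hpd.sg (hpd.isU g.1 g.2) hy)
  have hk2 : ∀ g ∈ Γ, ∀ y ∈ ball k, k0 (actC g y) = k0 y := by
    intro g hg y hy
    have h4 : ∀ g' : Γ, κ0 (actC g'.1 (actC g y)) = κ0 (actC (g' * ⟨g, hg⟩ : Γ).1 y) := by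
      intro g'
      rw [Subgroup.coe_mul, JB.actC_mul hpd.sg (hpd.isU g hg) hy]
    simp only [k0, h4]
    exact (Equiv.mulRight (⟨g, hg⟩ : Γ)).tsum_eq (fun g' : Γ => κ0 (actC g'.1 y))
  have hk3 : ∀ y ∈ ball k, 0 < k0 y := by
    intro y hy
    obtain ⟨s, hs, -⟩ := hk0 y hy
    have hs' := hs.self_of_nhds
    obtain ⟨g, hg, hgC⟩ := hC3 y hy
    have h4 : 0 < κ0 (actC g y) := by
      refine lt_of_le_of_ne (h0 _) (Ne.symm ?_)
      have : actC g y ∈ Function.support κ0 := by
        rw [h1]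
        exact hV2 hgC
      exact this
    have h5 : Summable fun g : Γ => κ0 (actC g.1 y) := summable_of_ne_finset_zero hs'
    exact h5.tsum_pos (fun g => h0 _) ⟨g, hg⟩ h4
  have hne : ∀ y ∈ ball k, k0 y ≠ 0 := fun y hy => (hk3 y hy).ne'
  have hsupp : Function.support (fun y => κ0 y / k0 y) ⊆ Function.support κ0 := by
    intro y hy hy'
    apply hy
    simp only [hy', zero_div]
  have hts' : tsupport (fun y => κ0 y / k0 y) ⊆ tsupport κ0 := closure_mono hsupp
  refine ⟨fun y => κ0 y / k0 y, ?_, ?_, hts'.trans hsub, ?_⟩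
  · refine contDiff_of_ts hopen ?_ (hts'.trans hsub)
    intro y hy
    exact (h2.contDiffAt.div (hk1 y hy) (hne y hy)).contDiffWithinAt
  · exact hcs.mono hsupp
  · intro y hy
    obtain ⟨s, hs1, hs2⟩ := hk0 y hy
    refine ⟨s, ?_, ?_⟩
    · filter_upwards [hs1] with z hz g hg
      rw [hz g hg, zero_div]
    · filter_upwards [hs2, hopen.mem_nhds hy] with z hz hz'
      have h4 : ∀ g ∈ s, κ0 (actC g.1 z) / k0 (actC g.1 z) = κ0 (actC g.1 z) / k0 z := by
        intro g _
        rw [hk2 g.1 g.2 z hz']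
      rw [Finset.sum_congr rfl h4, ← Finset.sum_div, ← hz]
      exact div_self (hne z hz')

end RS

open RS in
/-- Stokes on the quotient -/
theorem row_s (hLF : RowLF) (hU : RowU) (hJ : RowJ) (hN : RowN) : RowS := by
  intro n k Γ χ Y a₀ hpd hco hχ hY hper hinv
  obtain ⟨κ, hκ1, hκ2, hκ3, hκ4⟩ := exists_part hLF hpd hco
  have hopen : IsOpen (ball k) := isOpen_ball k
  have hYd : ∀ a, ∀ y ∈ ball k, DifferentiableAt ℝ (Y a) y := fun a y hy =>
    ((hY a).contDiffAt (hopen.mem_nhds hy)).differentiableAt (by norm_num)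
  have hκd : ∀ y, DifferentiableAt ℝ κ y := fun y => hκ1.contDiffAt.differentiableAt (by norm_num)
  have hχ0 : ∀ y, y ∉ ball k → χ y = 0 := fun y hy =>
    image_eq_zero_of_notMem_tsupport fun h => hy (hχ.supp h)
  have hmem : ∀ g : Γ, ∀ y ∈ ball k, actC g.1 y ∈ ball k := fun g y hy =>
    JB.actC_mem hpd.sg (hpd.isU g.1 g.2) hy
  have hfd : ∀ g : Γ, ∀ y ∈ ball k, ∀ a, fderiv ℝ (fun z => Y a (actC g.1 z)) y =
      fderiv ℝ (Y a) y := by
    intro g y hy a
    obtain ⟨c, hc⟩ := hper a g.1 g.2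
    have h1 : (fun z => Y a (actC g.1 z)) =ᶠ[𝓝 y] fun z => Y a z + c := by
      filter_upwards [hopen.mem_nhds hy] with z hz
      exact hc z hz
    rw [h1.fderiv_eq, fderiv_add_const]
  have hcJ : ContinuousOn (Jr Y) (ball k) := continuousOn_Jr hopen hY
  -- the first term
  have hc1 : ContinuousOn (fun y => κ y * Jr Y y) (ball k) :=
    hκ1.continuous.continuousOn.mul hcJ
  have hs1 : tsupport (fun y => κ y * Jr Y y) ⊆ tsupport κ := tsupport_mul_subset_left
  have hcs1 : HasCompactSupport (fun y => κ y * Jr Y y) := hκ2.mul_right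
  have e1 : ∫ y, κ y * Jr Y y = ∫ y, χ y * Jr Y y := by
    rw [hU n k Γ χ (fun y => κ y * Jr Y y) hpd hχ hc1 hcs1 (hs1.trans hκ3)]
    congr 1
    funext y
    by_cases hy : y ∈ ball k
    · congr 1
      obtain ⟨s, hs1, hs2⟩ := hκ4 y hy
      have h1 : ∀ g : Γ, jd g.1 y * (κ (actC g.1 y) * Jr Y (actC g.1 y)) =
          κ (actC g.1 y) * Jr Y y := by
        intro g
        have h2 := (hJ n k g.1 Y y hpd.sg (hpd.isU g.1 g.2) hy
          (fun a => hYd a _ (hmem g y hy))).2
        rw [Jr_congr (hfd g y hy)] at h2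
        rw [← h2]
        ring
      simp only [h1]
      rw [tsum_mul_right, tsum_eq_sum hs1.self_of_nhds, hs2.self_of_nhds, one_mul]
    · rw [hχ0 y hy, zero_mul, zero_mul]
  -- the second term
  have hup : ∀ a, ContDiffOn ℝ 2 (Function.update Y a₀ κ a) (ball k) := by
    intro a
    by_cases h : a = a₀
    · subst h
      rw [Function.update_self]
      exact hκ1.contDiffOn
    · rw [Function.update_of_ne h]
      exact hY a
  have hc2 : ContinuousOn (fun y => Y a₀ y * Jr (Function.update Y a₀ κ) y) (ball k) :=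
    (hY a₀).continuousOn.mul (continuousOn_Jr hopen hup)
  have hss : Function.support (fun y => Y a₀ y * Jr (Function.update Y a₀ κ) y) ⊆ tsupport κ := by
    intro y hy
    by_contra h
    apply hy
    simp only [Jr_update_zero Y a₀ (fderiv_ts h), mul_zero]
  have hs2 : tsupport (fun y => Y a₀ y * Jr (Function.update Y a₀ κ) y) ⊆ tsupport κ :=
    closure_minimal hss (isClosed_tsupport κ)
  have hcs2 : HasCompactSupport (fun y => Y a₀ y * Jr (Function.update Y a₀ κ) y) :=
    hκ2.mono' hss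
  have e2 : ∫ y, Y a₀ y * Jr (Function.update Y a₀ κ) y = 0 := by
    rw [hU n k Γ χ _ hpd hχ hc2 hcs2 (hs2.trans hκ3)]
    rw [← integral_zero (Fin n → ℂ) ℝ (μ := volume)]
    congr 1
    funext y
    by_cases hy : y ∈ ball k
    · obtain ⟨s, hs1, hs2⟩ := hκ4 y hy
      have h1 : ∀ g : Γ, jd g.1 y * (Y a₀ (actC g.1 y) *
          Jr (Function.update Y a₀ κ) (actC g.1 y)) =
          Y a₀ y * ((Mt Y y).updateRow a₀
            (fun b => fderiv ℝ (fun z => κ (actC g.1 z)) y (bas b))).det := by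
        intro g
        have h2 := (hJ n k g.1 (Function.update Y a₀ κ) y hpd.sg (hpd.isU g.1 g.2) hy
          (fun a => ((hup a).contDiffAt (hopen.mem_nhds (hmem g y hy))).differentiableAt
            (by norm_num))).2
        have h3 : Jr (fun a z => Function.update Y a₀ κ a (actC g.1 z)) y =
            Jr (Function.update Y a₀ (fun z => κ (actC g.1 z))) y := by
          refine Jr_congr fun a => ?_
          by_cases h : a = a₀
          · subst h
            simp only [Function.update_self]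
          · simp only [Function.update_of_ne h]
            exact hfd g y hy a
        rw [h3, Jr_update Y a₀ (fun z => κ (actC g.1 z))] at h2
        rw [← h2, hinv g.1 g.2 y hy]
        ring
      simp only [h1]
      rw [tsum_eq_sum (s := s), ← Finset.mul_sum]
      · have h4 : ∑ g ∈ s, ((Mt Y y).updateRow a₀
            (fun b => fderiv ℝ (fun z => κ (actC g.1 z)) y (bas b))).det =
            ((Mt Y y).updateRow a₀ (fun b => fderiv ℝ (fun z => ∑ g ∈ s, κ (actC g.1 z)) y
              (bas b))).det := by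
          have h5 : ∀ g ∈ s, DifferentiableAt ℝ (fun z => κ (actC g.1 z)) y := fun g _ =>
            (hκd _).comp y ((contDiffAt_actC hpd.sg (hpd.isU g.1 g.2) hy).differentiableAt
              (by norm_num))
          have h6 : (fun b => fderiv ℝ (fun z => ∑ g ∈ s, κ (actC g.1 z)) y (bas b)) =
              ∑ g ∈ s, fun b => fderiv ℝ (fun z => κ (actC g.1 z)) y (bas b) := by
            funext b
            rw [fderiv_fun_sum h5, Finset.sum_apply]
            simp only [_root_.sum_apply]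
          rw [h6]
          exact (((Matrix.detRowAlternating (n := Two n) (R := ℝ)).toMultilinearMap).map_update_sum
            s a₀ _ (Mt Y y)).symm
        have h7 : (fun z => ∑ g ∈ s, κ (actC g.1 z)) =ᶠ[𝓝 y] fun _ => (1 : ℝ) := hs2
        rw [h4, h7.fderiv_eq, fderiv_const_apply]
        have h8 : ((Mt Y y).updateRow a₀ (fun b => (0 : (Fin n → ℂ) →L[ℝ] ℝ) (bas b))).det = 0 := by
          refine Matrix.det_eq_zero_of_row_eq_zero a₀ fun b => ?_
          rw [Matrix.updateRow_self]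
          rfl
        rw [h8, mul_zero, mul_zero]
      · intro g hg
        have h5 : (fun z => κ (actC g.1 z)) =ᶠ[𝓝 y] fun _ => (0 : ℝ) := by
          filter_upwards [hs1] with z hz
          exact hz g hg
        rw [h5.fderiv_eq, fderiv_const_apply]
        have h8 : ((Mt Y y).updateRow a₀ (fun b => (0 : (Fin n → ℂ) →L[ℝ] ℝ) (bas b))).det = 0 := by
          refine Matrix.det_eq_zero_of_row_eq_zero a₀ fun b => ?_
          rw [Matrix.updateRow_self]
          rfl
        rw [h8, mul_zero]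
    · rw [hχ0 y hy, zero_mul]
  -- the total
  have hsφ : Function.support (fun y => κ y * Y a₀ y) ⊆ Function.support κ := by
    intro y hy hy'
    apply hy
    simp only [hy', zero_mul]
  have htφ : tsupport (fun y => κ y * Y a₀ y) ⊆ tsupport κ := closure_mono hsφ
  have e3 := hN n (ball k) Y a₀ (fun y => κ y * Y a₀ y) hopen
    (contDiff_of_ts hopen (hκ1.contDiffOn.mul (hY a₀)) (htφ.trans hκ3)) (hκ2.mono hsφ)
    (htφ.trans hκ3) hY
  have e4 : ∀ y, Jr (Function.update Y a₀ (fun y => κ y * Y a₀ y)) y =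
      κ y * Jr Y y + Y a₀ y * Jr (Function.update Y a₀ κ) y := by
    intro y
    by_cases hy : y ∈ ball k
    · rw [Jr_update, Jr_update]
      have h1 : (fun b => fderiv ℝ (fun y => κ y * Y a₀ y) y (bas b)) =
          κ y • Mt Y y a₀ + Y a₀ y • (fun b => fderiv ℝ κ y (bas b)) := by
        funext b
        rw [fderiv_fun_mul (hκd y) (hYd a₀ y hy)]
        rfl
      rw [h1, Matrix.det_updateRow_add, Matrix.det_updateRow_smul, Matrix.det_updateRow_smul,
        Matrix.updateRow_eq_self]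
      rfl
    · have hy' : y ∉ tsupport κ := fun h => hy (hκ3 h)
      rw [Jr_update_zero Y a₀ (fderiv_ts fun h => hy' (htφ h)), Jr_update_zero Y a₀ (fderiv_ts hy'),
        image_eq_zero_of_notMem_tsupport hy', zero_mul, mul_zero, add_zero]
  simp only [e4] at e3
  have i1 : Integrable (fun y => κ y * Jr Y y) :=
    (hc1.continuous_of_tsupport_subset hopen (hs1.trans hκ3)).integrable_of_hasCompactSupport hcs1
  have i2 : Integrable (fun y => Y a₀ y * Jr (Function.update Y a₀ κ) y) :=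
    (hc2.continuous_of_tsupport_subset hopen (hs2.trans hκ3)).integrable_of_hasCompactSupport hcs2
  rw [integral_add i1 i2, e2, add_zero, e1] at e3
  exact e3

end

end Pool.Agent.RAT
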