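import Pool.Agent.Lib.RAT.Defs

/-!
# Row SA: regular values modulo `ℤ^(2n)`
-/

set_option autoImplicit false

open Complex MeasureTheory Pool.Agent.CMN Pool.Agent.HCM

namespace Pool.Agent.RAT

noncomputable section

namespace SAx

theorem toE_add {n : ℕ} (s t : Two n → ℝ) : toE (s + t) = toE s + toE t := by
  funext j
  simp only [toE, Pi.add_apply, Complex.ofReal_add]
  ring

theorem hasFDerivAt_toE {n : ℕ} {X : Two n → (Fin n → ℂ) → ℝ} {y : Fin n → ℂ}
    (h : ∀ a, DifferentiableAt ℝ (X a) y) :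
    DifferentiableAt ℝ (fun z => toE (fun a => X a z)) y := by
  rw [differentiableAt_pi]
  intro j
  have h1 : DifferentiableAt ℝ (fun z => ((X (Sum.inl j) z : ℝ) : ℂ)) y :=
    Complex.ofRealCLM.differentiableAt.comp y (h _)
  have h2 : DifferentiableAt ℝ (fun z => ((X (Sum.inr j) z : ℝ) : ℂ)) y :=
    Complex.ofRealCLM.differentiableAt.comp y (h _)
  exact h1.add (h2.const_mul I)

end SAx

theorem row_sa : RowD → RowSA := by
  intro hD n B X hB hX
  obtain ⟨-, -, hbij, hdet⟩ := hD n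
  set F : (Fin n → ℂ) → Fin n → ℂ := fun z => toE (fun a => X a z) with hF
  set Cr : Set (Fin n → ℂ) := {y | y ∈ B ∧ Jr X y = 0} with hCr
  have hd : ∀ y ∈ B, ∀ a, DifferentiableAt ℝ (X a) y := fun y hy a =>
    ((hX a).differentiableOn one_ne_zero).differentiableAt (hB.mem_nhds hy)
  have hnull : volume (F '' Cr) = 0 := by
    refine addHaar_image_eq_zero_of_det_fderivWithin_eq_zero (μ := volume)
      (f' := fun y => fderiv ℝ F y) (fun y hy => ?_) fun y hy => ?_
    · exact (SAx.hasFDerivAt_toE (hd y hy.1)).hasFDerivAt.hasFDerivWithinAt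
    · rw [hF, hdet X y (hd y hy.1)]
      exact hy.2
  have hU : volume (⋃ m : Two n → ℤ, (fun z => z - toE (fun a => (m a : ℝ))) '' (F '' Cr)) = 0 := by
    rw [measure_iUnion_null_iff]
    intro m
    have h1 : (fun z : Fin n → ℂ => z - toE (fun a => (m a : ℝ))) =
        fun z => z + -toE (fun a => (m a : ℝ)) := by
      funext z; rw [sub_eq_add_neg]
    rw [h1, Set.image_add_right, neg_neg, measure_preimage_add_right]
    exact hnull
  obtain ⟨e, he⟩ : ∃ e, e ∉ ⋃ m : Two n → ℤ,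
      (fun z => z - toE (fun a => (m a : ℝ))) '' (F '' Cr) := by
    by_contra hcon
    push Not at hcon
    rw [Set.eq_univ_of_forall hcon] at hU
    exact (Measure.measure_univ_ne_zero.2 (NeZero.ne (volume : Measure (Fin n → ℂ)))) hU
  obtain ⟨s, rfl⟩ := hbij.2 e
  refine ⟨s, fun y hy ⟨m, hm⟩ h0 => he ?_⟩
  refine Set.mem_iUnion.2 ⟨m, F y, ⟨y, ⟨hy, h0⟩, rfl⟩, ?_⟩
  have h1 : F y = toE s + toE (fun a => (m a : ℝ)) := by
    rw [← SAx.toE_add]
    exact congrArg toE (funext hm)
  change F y - _ = _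
  rw [h1, add_sub_cancel_right]

end

end Pool.Agent.RAT
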