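import Pool.Agent.Lib.RAT.Defs

/-!
# Tank RAT, row T: concentration (helper77)
-/

set_option autoImplicit false

open scoped ComplexConjugate Matrix Topology
open Complex MeasureTheory Pool.Agent.CMN Pool.Agent.HCM

namespace Pool.Agent.RAT

namespace Tx

variable {n : ℕ}

/-- the primitive of a bump -/
noncomputable def Th (ψ : ℝ → ℝ) (t : ℝ) : ℝ := ∫ u in (0 : ℝ)..t, ψ u

theorem hasDerivAt_Th {ψ : ℝ → ℝ} (h : Continuous ψ) (t : ℝ) : HasDerivAt (Th ψ) (ψ t) t :=
  intervalIntegral.integral_hasDerivAt_right (h.intervalIntegrable _ _)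
    (h.stronglyMeasurableAtFilter _ _) h.continuousAt

theorem contDiff_Th {ψ : ℝ → ℝ} (h : ContDiff ℝ 1 ψ) : ContDiff ℝ 2 (Th ψ) := by
  have hd : deriv (Th ψ) = ψ := funext fun t => (hasDerivAt_Th h.continuous t).deriv
  have h2 : ContDiff ℝ (1 + 1) (Th ψ) := by
    rw [contDiff_succ_iff_deriv]
    refine ⟨fun t => (hasDerivAt_Th h.continuous t).differentiableAt, ?_, ?_⟩
    · intro h'
      simp at h'
    · rw [hd]; exact h
  simpa [one_add_one_eq_two] using h2

theorem Th_add_int {δ : ℝ} {ψ : ℝ → ℝ} (h : Bump δ ψ) (t : ℝ) (m : ℤ) :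
    Th ψ (t + m) = Th ψ t + m := by
  have hc := h.smooth.continuous
  have hp : Function.Periodic ψ 1 := h.per
  have h1 : Function.Periodic (fun t => Th ψ t - t) 1 := by
    intro t
    have e1 : Th ψ (t + 1) = Th ψ t + ∫ u in t..(t + 1), ψ u := by
      unfold Th
      rw [intervalIntegral.integral_add_adjacent_intervals (hc.intervalIntegrable _ _)
        (hc.intervalIntegrable _ _)]
    have e2 := hp.intervalIntegral_add_eq t 0
    rw [zero_add, h.int] at e2
    simp only [e1, e2]
    ring
  have h2 := h1.int_mul m t
  simp only [mul_one] at h2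
  linarith

theorem isOpen_ball (k : Fin (n + 1) → ℝ) : IsOpen (ball k) := by
  unfold ball
  exact isOpen_lt (by fun_prop) continuous_const

/-- the Jacobian determinant is continuous -/
theorem continuousOn_Jr {B : Set (Fin n → ℂ)} (hB : IsOpen B) {Y : Two n → (Fin n → ℂ) → ℝ}
    (hY : ∀ a, ContDiffOn ℝ 2 (Y a) B) : ContinuousOn (Jr Y) B := by
  intro y hy
  refine ContinuousAt.continuousWithinAt ?_
  have h1 : ∀ a, ContinuousAt (fderiv ℝ (Y a)) y := fun a =>
    ((hY a).contDiffAt (hB.mem_nhds hy)).continuousAt_fderiv (by norm_num)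
  have h2 : ContinuousAt (fun z => Matrix.of fun a b => fderiv ℝ (Y a) z (bas b)) y := by
    refine continuousAt_pi.2 fun a => continuousAt_pi.2 fun b => ?_
    exact (h1 a).clm_apply continuousAt_const
  exact (Continuous.matrix_det continuous_id).continuousAt.comp h2

/-- integrability -/
theorem integrable_mul {k : Fin (n + 1) → ℝ} {Γ : Subgroup (SLn n)} {χ F : (Fin n → ℂ) → ℝ}
    (hχ : IsWt k Γ χ) (hF : ContinuousOn F (ball k)) : Integrable (fun y => χ y * F y) := by
  have hc : Continuous (fun y => χ y * F y) := by
    rw [continuous_iff_continuousAt]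
    intro y
    by_cases hy : y ∈ ball k
    · exact hχ.cont.continuousAt.mul (hF.continuousAt ((isOpen_ball k).mem_nhds hy))
    · have hy' : y ∉ tsupport χ := fun h => hy (hχ.supp h)
      have h0 : (fun y => χ y * F y) =ᶠ[𝓝 y] fun _ => 0 := by
        have := (isClosed_tsupport χ).isOpen_compl.mem_nhds hy'
        filter_upwards [this] with z hz
        rw [image_eq_zero_of_notMem_tsupport hz, zero_mul]
      exact (continuousAt_const (y := (0 : ℝ))).congr h0.symm
  exact hc.integrable_of_hasCompactSupport hχ.comp.mul_right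

/-- linearity in one function -/
theorem Jr_update_sub {Y : Two n → (Fin n → ℂ) → ℝ} {a₀ : Two n} {f g : (Fin n → ℂ) → ℝ}
    {y : Fin n → ℂ} (hf : DifferentiableAt ℝ f y) (hg : DifferentiableAt ℝ g y) :
    Jr (Function.update Y a₀ (fun z => f z - g z)) y =
      Jr (Function.update Y a₀ f) y - Jr (Function.update Y a₀ g) y := by
  classical
  have key : ∀ u : (Fin n → ℂ) → ℝ,
      (Matrix.of fun a b => fderiv ℝ (Function.update Y a₀ u a) y (bas b)) =
        Matrix.updateRow (Matrix.of fun a b => fderiv ℝ (Y a) y (bas b)) a₀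
          (fun b => fderiv ℝ u y (bas b)) := by
    intro u
    ext a b
    by_cases ha : a = a₀
    · subst ha
      simp
    · simp [Matrix.updateRow_ne ha, Function.update_of_ne ha]
  unfold Jr
  rw [key, key, key]
  have h1 : (fun b : Two n => fderiv ℝ (fun z => f z - g z) y (bas b)) =
      (fun b => fderiv ℝ f y (bas b)) + (-1 : ℝ) • (fun b => fderiv ℝ g y (bas b)) := by
    funext b
    rw [fderiv_fun_sub hf hg]
    simp [sub_eq_add_neg]
  rw [h1, Matrix.det_updateRow_add, Matrix.det_updateRow_smul]
  ring

end Tx

open Tx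

/-- Row T. -/
theorem row_t : RowS → RowT := by
  classical
  intro hS n k Γ χ X m δ ψ s hPD hcc hχ hX hper hψ
  have hB := Tx.isOpen_ball k
  set Z : Two n → (Fin n → ℂ) → ℝ := fun a y => Th ψ (X a y - s a) with hZ
  have hZ2 : ∀ a, ContDiffOn ℝ 2 (Z a) (ball k) := fun a =>
    (contDiff_Th hψ.smooth).comp_contDiffOn ((hX a).sub contDiffOn_const)
  have hZper : ∀ a, ∀ g ∈ Γ, ∀ y ∈ ball k, Z a (actC g y) = Z a y + m a g := by
    intro a g hg y hy
    simp only [hZ]
    rw [hper a g hg y hy, ← Th_add_int hψ]
    congr 1
    ring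
  -- replace one coordinate at a time
  have key : ∀ S : Finset (Two n), ∫ y, χ y * Jr (fun a => if a ∈ S then Z a else X a) y =
      ∫ y, χ y * Jr X y := by
    intro S
    induction S using Finset.induction_on with
    | empty => simp
    | insert a₀ S ha ih =>
      rw [← ih]
      set Y : Two n → (Fin n → ℂ) → ℝ := fun a => if a ∈ S then Z a else X a with hY
      have hY2 : ∀ a, ContDiffOn ℝ 2 (Y a) (ball k) := by
        intro a
        simp only [hY]
        split_ifs
        · exact hZ2 a
        · exact hX a
      have hYper : ∀ a, ∀ g ∈ Γ, ∀ y ∈ ball k, Y a (actC g y) = Y a y + m a g := by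
        intro a g hg y hy
        simp only [hY]
        split_ifs
        · exact hZper a g hg y hy
        · exact hper a g hg y hy
      have e1 : (fun a => if a ∈ insert a₀ S then Z a else X a) =
          Function.update Y a₀ (Z a₀) := by
        funext a
        by_cases h : a = a₀
        · subst h
          simp
        · simp [hY, Finset.mem_insert, h]
      have e2 : Y = Function.update Y a₀ (X a₀) := by
        funext a
        by_cases h : a = a₀
        · subst h
          simp [hY, ha]
        · simp [Function.update_of_ne h]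
      have hU2 : ∀ f : (Fin n → ℂ) → ℝ, ContDiffOn ℝ 2 f (ball k) →
          ∀ a, ContDiffOn ℝ 2 (Function.update Y a₀ f a) (ball k) := by
        intro f hf a
        by_cases h : a = a₀
        · subst h
          rw [Function.update_self]; exact hf
        · rw [Function.update_of_ne h]; exact hY2 a
      have hst := hS n k Γ χ (Function.update Y a₀ (fun z => Z a₀ z - X a₀ z)) a₀ hPD hcc hχ
        (hU2 _ ((hZ2 a₀).sub (hX a₀)))
        (by
          intro a g hg
          by_cases h : a = a₀
          · subst h
            refine ⟨0, fun y hy => ?_⟩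
            rw [Function.update_self, hZper a g hg y hy, hper a g hg y hy]
            ring
          · refine ⟨m a g, fun y hy => ?_⟩
            rw [Function.update_of_ne h]
            exact hYper a g hg y hy)
        (by
          intro g hg y hy
          rw [Function.update_self, hZper a₀ g hg y hy, hper a₀ g hg y hy]
          ring)
      have hi1 := integrable_mul hχ (continuousOn_Jr hB (hU2 _ (hZ2 a₀)))
      have hi2 := integrable_mul hχ (continuousOn_Jr hB (hU2 _ (hX a₀)))
      rw [e1]
      conv_rhs => rw [e2]
      rw [← sub_eq_zero, ← integral_sub hi1 hi2, ← hst]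
      refine integral_congr_ae (Filter.Eventually.of_forall fun y => ?_)
      beta_reduce
      by_cases hy : y ∈ ball k
      · have hn := hB.mem_nhds hy
        rw [Jr_update_sub (((hZ2 a₀).contDiffAt hn).differentiableAt (by norm_num))
          (((hX a₀).contDiffAt hn).differentiableAt (by norm_num))]
        ring
      · have hy' : y ∉ tsupport χ := fun h => hy (hχ.supp h)
        rw [image_eq_zero_of_notMem_tsupport hy']
        ring
  rw [← key Finset.univ]
  refine integral_congr_ae (Filter.Eventually.of_forall fun y => ?_)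
  beta_reduce
  by_cases hy : y ∈ ball k
  · congr 1
    simp only [Finset.mem_univ, if_true]
    unfold Jr
    rw [← Matrix.det_mul_column]
    congr 1
    ext a b
    have hn := hB.mem_nhds hy
    have hXd : HasFDerivAt (X a) (fderiv ℝ (X a) y) y :=
      (((hX a).contDiffAt hn).differentiableAt (by norm_num)).hasFDerivAt
    have hXs : HasFDerivAt (fun z => X a z - s a) (fderiv ℝ (X a) y) y := hXd.sub_const (s a)
    have h1 : HasFDerivAt (Z a) (ψ (X a y - s a) • fderiv ℝ (X a) y) y :=
      HasDerivAt.comp_hasFDerivAt (h₂ := Th ψ) (f := fun z => X a z - s a) y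
        (hasDerivAt_Th hψ.smooth.continuous (X a y - s a)) hXs
    simp only [Matrix.of_apply]
    rw [h1.fderiv]
    rfl
  · have hy' : y ∉ tsupport χ := fun h => hy (hχ.supp h)
    rw [image_eq_zero_of_notMem_tsupport hy']
    ring

end Pool.Agent.RAT
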