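import Pool.Agent.Lib.RAT.Defs

/-!
# RAT, row U: unfolding (helper2)
-/

set_option autoImplicit false

open scoped ComplexConjugate Matrix Topology
open Complex MeasureTheory Pool.Agent.CMN Pool.Agent.HCM

namespace Pool.Agent.RAT.Ux

variable {n : ℕ}

theorem jd_eq (g : SLn n) (y : Fin n → ℂ) :
    jd g y = (‖Pool.CMN.Jac.jf g.1 y‖ ^ (2 * (n + 1)))⁻¹ := rfl

theorem continuousOn_jd {k : Fin (n + 1) → ℝ} (hs : Pool.CMN.Jac.Sg k) {g : SLn n}
    (hg : Pool.CMN.Jac.IsU k g.1) : ContinuousOn (jd g) (ball k) := by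
  have h1 : jd g = fun y => (‖Pool.CMN.Jac.jf g.1 y‖ ^ (2 * (n + 1)))⁻¹ := rfl
  rw [h1]
  refine ContinuousOn.inv₀ ?_ ?_
  · exact ((Pool.CMN.Jac.continuous_jf g.1).norm.pow _).continuousOn
  · intro y hy
    exact pow_ne_zero _ (norm_ne_zero_iff.2 (Pool.CMN.Jac.jf_ne hs hg hy))

/-- A function continuous on the ball and vanishing off a compact subset of the ball is
integrable. -/
theorem integrableOn_of {k : Fin (n + 1) → ℝ} {F : (Fin n → ℂ) → ℝ} {C : Set (Fin n → ℂ)}
    (hC : IsCompact C) (hCb : C ⊆ ball k) (hF : ContinuousOn F (ball k))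
    (h0 : ∀ y ∈ ball k, y ∉ C → F y = 0) : IntegrableOn F (ball k) := by
  have h1 : IntegrableOn F C := (hF.mono hCb).integrableOn_compact hC
  refine (integrableOn_congr_fun (g := C.indicator F) ?_
    (Pool.Agent.CMN.isOpen_ball k).measurableSet).2 ?_
  · intro y hy
    by_cases hyC : y ∈ C
    · rw [Set.indicator_of_mem hyC]
    · rw [Set.indicator_of_notMem hyC, h0 y hy hyC]
  · exact (h1.integrable_indicator hC.measurableSet).integrableOn

end Pool.Agent.RAT.Ux

namespace Pool.Agent.RAT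

open Ux

/-- U: unfolding. -/
theorem row_U : RowU := by
  classical
  intro n k Γ χ v hPD hχ hvc hvs hvb
  have hsg := hPD.sg
  set B := ball k with hB
  have hBm : MeasurableSet B := (Pool.Agent.CMN.isOpen_ball k).measurableSet
  -- the finite set of group elements
  set C := tsupport χ ∪ tsupport v with hC
  have hCc : IsCompact C := IsCompact.union hχ.comp hvs
  have hCb : C ⊆ B := Set.union_subset hχ.supp hvb
  have hfin := hPD.pd C hCc hCb
  set S := hfin.toFinset with hS
  have memS : ∀ g : Γ, g ∈ S ↔ ∃ y ∈ C, actC g.1 y ∈ C := by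
    intro g; rw [hS, Set.Finite.mem_toFinset]; rfl
  have hU : ∀ g : Γ, Pool.CMN.Jac.IsU k g.1.1 := fun g => hPD.isU g.1 g.2
  have hmem : ∀ (g : Γ) (y : Fin n → ℂ), y ∈ B → actC g.1 y ∈ B := fun g y hy =>
    JB.actC_mem hsg (hU g) hy
  have hinv : ∀ (g : Γ) (y : Fin n → ℂ), y ∈ B → actC g.1 (actC (g⁻¹).1 y) = y := by
    intro g y hy
    rw [← JB.actC_mul hsg (hU g⁻¹) hy, ← Subgroup.coe_mul, mul_inv_cancel]
    exact JB.actC_one y
  have hcont : ∀ g : Γ, ContinuousOn (actC g.1) B := fun g =>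
    Pool.CMN.Jac.continuousOn_act hsg (hU g)
  -- the two families of functions
  set p : Γ → (Fin n → ℂ) → ℝ := fun g y => χ (actC g.1 y) * v y with hp
  set q : Γ → (Fin n → ℂ) → ℝ := fun g y => χ y * (jd g.1 y * v (actC g.1 y)) with hq
  have p0 : ∀ g ∉ S, ∀ y ∈ B, p g y = 0 := by
    intro g hg y _
    by_contra h0
    refine hg ((memS g).2 ⟨y, Or.inr ?_, Or.inl ?_⟩)
    · exact subset_tsupport v (right_ne_zero_of_mul h0)
    · exact subset_tsupport χ (left_ne_zero_of_mul h0)
  have q0 : ∀ g ∉ S, ∀ y, q g y = 0 := by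
    intro g hg y
    by_contra h0
    refine hg ((memS g).2 ⟨y, Or.inl ?_, Or.inr ?_⟩)
    · exact subset_tsupport χ (left_ne_zero_of_mul h0)
    · exact subset_tsupport v (right_ne_zero_of_mul (right_ne_zero_of_mul h0))
  have pI : ∀ g, IntegrableOn (p g) B := by
    intro g
    refine integrableOn_of (C := tsupport v) hvs hvb ?_ ?_
    · exact (hχ.cont.comp_continuousOn (hcont g)).mul hvc
    · intro y _ hy
      simp only [hp]
      rw [image_eq_zero_of_notMem_tsupport hy, mul_zero]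
  have qI : ∀ g, IntegrableOn (q g) B := by
    intro g
    refine integrableOn_of (C := tsupport χ) hχ.comp hχ.supp ?_ ?_
    · exact hχ.cont.continuousOn.mul ((continuousOn_jd hsg (hU g)).mul
        (hvc.comp (hcont g) fun y hy => hmem g y hy))
    · intro y _ hy
      simp only [hq]
      rw [image_eq_zero_of_notMem_tsupport hy, zero_mul]
  -- the left side
  have hL : ∫ y, v y = ∑' g : Γ, ∫ y in B, p g y := by
    rw [tsum_eq_sum (s := S) (fun g hg => by
      rw [setIntegral_congr_fun hBm (fun y hy => p0 g hg y hy)]; simp)]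
    rw [← integral_finsetSum _ fun g _ => pI g]
    rw [← setIntegral_eq_integral_of_forall_compl_eq_zero (s := B) fun y hy =>
      image_eq_zero_of_notMem_tsupport fun h => hy (hvb h)]
    refine setIntegral_congr_fun hBm fun y hy => ?_
    have h1 := (hχ.sum y hy).tsum_eq
    have h2 := ((hχ.sum y hy).mul_right (v y)).tsum_eq
    rw [one_mul] at h2
    rw [← h2]
    exact tsum_eq_sum fun g hg => p0 g hg y hy
  -- the right side
  have hR : ∫ y, χ y * ∑' g : Γ, jd g.1 y * v (actC g.1 y) = ∑' g : Γ, ∫ y in B, q g y := by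
    rw [tsum_eq_sum (s := S) (fun g hg => by
      rw [setIntegral_congr_fun hBm (fun y _ => q0 g hg y)]; simp)]
    rw [← integral_finsetSum _ fun g _ => qI g]
    rw [← setIntegral_eq_integral_of_forall_compl_eq_zero (s := B) fun y hy => by
      rw [image_eq_zero_of_notMem_tsupport fun h => hy (hχ.supp h), zero_mul]]
    refine setIntegral_congr_fun hBm fun y hy => ?_
    rw [← tsum_mul_left]
    exact tsum_eq_sum fun g hg => q0 g hg y
  rw [hL, hR, ← (Equiv.inv Γ).tsum_eq]
  refine tsum_congr fun g => ?_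
  simp only [Equiv.inv_apply]
  have h1 := Pool.CMN.Jac.integral_act hsg (hU g) (p g⁻¹)
  rw [hB]
  refine Eq.trans h1 (setIntegral_congr_fun hBm fun y hy => ?_)
  have h2 : actC (g⁻¹).1 (actC g.1 y) = y := by
    have := hinv g⁻¹ y hy
    rwa [inv_inv] at this
  change (‖Pool.CMN.Jac.jf g.1.1 y‖ ^ (2 * (n + 1)))⁻¹ • (χ (actC (g⁻¹).1 (actC g.1 y)) *
    v (actC g.1 y)) = χ y * (jd g.1 y * v (actC g.1 y))
  rw [h2, jd_eq, smul_eq_mul]
  ring

end Pool.Agent.RAT
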