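import Pool.Agent.Lib.RAT.LF
import Pool.Agent.Lib.RAT.U
import Pool.Agent.Lib.RAT.J
import Pool.Agent.Lib.RAT.N
import Pool.Agent.Lib.RAT.S
import Pool.Agent.Lib.RAT.T
import Pool.Agent.Lib.RAT.B
import Pool.Agent.Lib.RAT.D
import Pool.Agent.Lib.RAT.SA
import Pool.Agent.Lib.RAT.L1
import Pool.Agent.Lib.RAT.L
import Pool.Agent.Lib.RAT.O
import Pool.Agent.Lib.RAT.C1
import Pool.Agent.Lib.RAT.C2
import Pool.Agent.Lib.RAT.C
import Pool.Agent.Lib.RAT.LQ
import Pool.Agent.Lib.RAT.M
import Pool.Agent.Lib.CMP.Fin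

/-!
# Tank RAT: final assembly (helper64)
-/

set_option autoImplicit false

open Pool.Agent.CMN Pool.Agent.HCM

namespace Pool.Agent.RAT

theorem rowM : RowM :=
  row_m (row_t (row_s row_LF row_U row_j row_n)) row_b (row_sa row_d)
    (row_l (row_l1 row_d)) row_o row_j

/-- The classes of compact ball quotients in abelian varieties of CM type are rational, up to the
constant `(-2i)^n`. -/
theorem rowC : RowC := row_c rowM row_c1 row_c2

/-- **The Hodge conjecture for abelian varieties of CM type**, with rational coefficients. -/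
theorem hodgeQ : HODGEQ := hodgeQ_of Pool.CMP.hodge_full Pool.Agent.CMN.pdx rowC row_lq

end Pool.Agent.RAT
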