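import Pool.Agent.Lib.HCM.Stat
import Pool.Agent.Lib.CMN.JacBr
import Pool.Agent.Lib.CMN.Api

/-!
# Tank RAT: rationality of the classes of compact ball quotients (helper64)

`(-2i)^n • cls` lies in `H_{2n}(A, ℚ)`.  The real coordinates of a map `Γ\ball → A` are real
functions with integer periods, and the integral of their Jacobian over `Γ\ball` is rational: it is
the sum of `sign / |Stab|` over the `Γ`-orbits above a regular value.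
-/

set_option autoImplicit false

open scoped ComplexConjugate Matrix Topology
open Complex MeasureTheory Pool.Agent.CMN Pool.Agent.HCM

namespace Pool.Agent.RAT

noncomputable section

variable {n : ℕ}

/-- The real basis `e_j`, `i e_j` of `ℂ^n`. -/
def bas (b : Two n) : Fin n → ℂ :=
  Sum.elim (fun j => Pi.single j 1) (fun j => Pi.single j I) b

/-- The real Jacobian determinant of `2n` real functions on `ℂ^n`. -/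
def Jr (Y : Two n → (Fin n → ℂ) → ℝ) (y : Fin n → ℂ) : ℝ :=
  Matrix.det (Matrix.of fun a b => fderiv ℝ (Y a) y (bas b))

/-- The real Jacobian determinant of `actC g`. -/
def jd (g : SLn n) (y : Fin n → ℂ) : ℝ := (‖(g.1 *ᵥ hat y) (Fin.last n)‖ ^ (2 * (n + 1)))⁻¹

/-- A properly discontinuous group of isometries of the ball. -/
structure PD (k : Fin (n + 1) → ℝ) (Γ : Subgroup (SLn n)) : Prop where
  sg : Pool.CMN.Jac.Sg k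
  isU : ∀ g ∈ Γ, Pool.CMN.Jac.IsU k g.1
  pd : ∀ C : Set (Fin n → ℂ), IsCompact C → C ⊆ ball k →
    {g : Γ | ∃ y ∈ C, actC g.1 y ∈ C}.Finite

/-- `s ↦ (s_j + i s'_j)_j`. -/
def toE (s : Two n → ℝ) : Fin n → ℂ := fun j => (s (Sum.inl j) : ℂ) + I * (s (Sum.inr j) : ℂ)

/-- Points where `X` is congruent to `s` modulo `ℤ^(2n)`. -/
def fib (X : Two n → (Fin n → ℂ) → ℝ) (s : Two n → ℝ) : Set (Fin n → ℂ) :=
  {y | ∃ m : Two n → ℤ, ∀ a, X a y = s a + m a}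

/-- Periodic bumps of width `δ`. -/
structure Bump (δ : ℝ) (ψ : ℝ → ℝ) : Prop where
  smooth : ContDiff ℝ 1 ψ
  nonneg : ∀ t, 0 ≤ ψ t
  per : ∀ t, ψ (t + 1) = ψ t
  int : ∫ t in (0 : ℝ)..1, ψ t = 1
  supp : ∀ t, ψ t ≠ 0 → ∃ m : ℤ, |t - m| < δ

/-- Wirtinger derivatives of a real function. -/
def Wi (X : (Fin n → ℂ) → ℝ) (y : Fin n → ℂ) : Two n → ℂ :=
  Sum.elim
    (fun j => (1 / 2 : ℂ) * ((fderiv ℝ X y (Pi.single j 1) : ℂ) -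
      I * (fderiv ℝ X y (Pi.single j I) : ℂ)))
    (fun j => (1 / 2 : ℂ) * ((fderiv ℝ X y (Pi.single j 1) : ℂ) +
      I * (fderiv ℝ X y (Pi.single j I) : ℂ)))

/-! ## The rows -/

/-- LF: local finiteness. -/
def RowLF : Prop := ∀ (n : ℕ) (k : Fin (n + 1) → ℝ) (Γ : Subgroup (SLn n))
  (κ : (Fin n → ℂ) → ℝ), PD k Γ → HasCompactSupport κ → tsupport κ ⊆ ball k →
  ∀ y ∈ ball k, ∃ s : Finset Γ, ∀ᶠ z in 𝓝 y, ∀ g ∉ s, κ (actC g.1 z) = 0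

/-- U: unfolding. -/
def RowU : Prop := ∀ (n : ℕ) (k : Fin (n + 1) → ℝ) (Γ : Subgroup (SLn n))
  (χ v : (Fin n → ℂ) → ℝ), PD k Γ → IsWt k Γ χ → ContinuousOn v (ball k) →
  HasCompactSupport v → tsupport v ⊆ ball k →
  ∫ y, v y = ∫ y, χ y * ∑' g : Γ, jd g.1 y * v (actC g.1 y)

/-- J: chain rule. -/
def RowJ : Prop := ∀ (n : ℕ) (k : Fin (n + 1) → ℝ) (g : SLn n)
  (Y : Two n → (Fin n → ℂ) → ℝ) (y : Fin n → ℂ), Pool.CMN.Jac.Sg k →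
  Pool.CMN.Jac.IsU k g.1 → y ∈ ball k → (∀ a, DifferentiableAt ℝ (Y a) (actC g y)) →
  0 < jd g y ∧ jd g y * Jr Y (actC g y) = Jr (fun a z => Y a (actC g z)) y

/-- N: the integral of a Jacobian determinant with one compactly supported entry is zero. -/
def RowN : Prop := ∀ (n : ℕ) (B : Set (Fin n → ℂ)) (Y : Two n → (Fin n → ℂ) → ℝ)
  (a₀ : Two n) (φ : (Fin n → ℂ) → ℝ), IsOpen B → ContDiff ℝ 2 φ → HasCompactSupport φ →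
  tsupport φ ⊆ B → (∀ a, ContDiffOn ℝ 2 (Y a) B) → ∫ y, Jr (Function.update Y a₀ φ) y = 0

/-- S: Stokes on the quotient. -/
def RowS : Prop := ∀ (n : ℕ) (k : Fin (n + 1) → ℝ) (Γ : Subgroup (SLn n))
  (χ : (Fin n → ℂ) → ℝ) (Y : Two n → (Fin n → ℂ) → ℝ) (a₀ : Two n), PD k Γ →
  Cocompact k Γ → IsWt k Γ χ → (∀ a, ContDiffOn ℝ 2 (Y a) (ball k)) →
  (∀ a, ∀ g ∈ Γ, ∃ c : ℝ, ∀ y ∈ ball k, Y a (actC g y) = Y a y + c) →
  (∀ g ∈ Γ, ∀ y ∈ ball k, Y a₀ (actC g y) = Y a₀ y) → ∫ y, χ y * Jr Y y = 0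

/-- T: concentration. -/
def RowT : Prop := ∀ (n : ℕ) (k : Fin (n + 1) → ℝ) (Γ : Subgroup (SLn n))
  (χ : (Fin n → ℂ) → ℝ) (X : Two n → (Fin n → ℂ) → ℝ) (m : Two n → SLn n → ℤ) (δ : ℝ)
  (ψ : ℝ → ℝ) (s : Two n → ℝ), PD k Γ → Cocompact k Γ → IsWt k Γ χ →
  (∀ a, ContDiffOn ℝ 2 (X a) (ball k)) →
  (∀ a, ∀ g ∈ Γ, ∀ y ∈ ball k, X a (actC g y) = X a y + m a g) → Bump δ ψ →
  ∫ y, χ y * ((∏ a, ψ (X a y - s a)) * Jr X y) = ∫ y, χ y * Jr X y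

/-- B: bumps exist. -/
def RowB : Prop := ∀ δ : ℝ, 0 < δ → ∃ ψ : ℝ → ℝ, Bump δ ψ

/-- D: the map `toE`. -/
def RowD : Prop := ∀ n : ℕ, MeasurePreserving (toE : (Two n → ℝ) → Fin n → ℂ) ∧
  MeasurableEmbedding (toE : (Two n → ℝ) → Fin n → ℂ) ∧
  Function.Bijective (toE : (Two n → ℝ) → Fin n → ℂ) ∧
  ∀ (X : Two n → (Fin n → ℂ) → ℝ) (y : Fin n → ℂ), (∀ a, DifferentiableAt ℝ (X a) y) →
    (fderiv ℝ (fun z => toE (fun a => X a z)) y).det = Jr X y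

/-- SA: regular values modulo `ℤ^(2n)` (Sard). -/
def RowSA : Prop := ∀ (n : ℕ) (B : Set (Fin n → ℂ)) (X : Two n → (Fin n → ℂ) → ℝ),
  IsOpen B → (∀ a, ContDiffOn ℝ 1 (X a) B) →
  ∃ s : Two n → ℝ, ∀ y ∈ B, y ∈ fib X s → Jr X y ≠ 0

/-- L1: one point above a regular value. -/
def RowL1 : Prop := ∀ (n : ℕ) (B : Set (Fin n → ℂ)) (χ : (Fin n → ℂ) → ℝ)
  (X : Two n → (Fin n → ℂ) → ℝ) (s : Two n → ℝ) (y₀ : Fin n → ℂ), IsOpen B → y₀ ∈ B →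
  Continuous χ → (∀ a, ContDiffOn ℝ 1 (X a) B) → y₀ ∈ fib X s → Jr X y₀ ≠ 0 →
  ∀ ε : ℝ, 0 < ε → ∃ r₀ : ℝ, 0 < r₀ ∧ Metric.closedBall y₀ r₀ ⊆ B ∧
    (∀ y ∈ Metric.closedBall y₀ r₀, y ∈ fib X s → y = y₀) ∧
    ∀ r : ℝ, 0 < r → r ≤ r₀ → ∃ δ : ℝ, 0 < δ ∧ ∀ ψ : ℝ → ℝ, Bump δ ψ →
      |(∫ y in Metric.closedBall y₀ r, χ y * ((∏ a, ψ (X a y - s a)) * Jr X y)) -
        χ y₀ * ((SignType.sign (Jr X y₀) : ℤ) : ℝ)| ≤ ε

/-- L: all points above a regular value. -/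
def RowL : Prop := ∀ (n : ℕ) (B : Set (Fin n → ℂ)) (χ : (Fin n → ℂ) → ℝ)
  (X : Two n → (Fin n → ℂ) → ℝ) (s : Two n → ℝ), IsOpen B → Continuous χ →
  HasCompactSupport χ → tsupport χ ⊆ B → (∀ a, ContDiffOn ℝ 1 (X a) B) →
  (∀ y ∈ B, y ∈ fib X s → Jr X y ≠ 0) → (tsupport χ ∩ fib X s).Finite ∧
  ∀ ε : ℝ, 0 < ε → ∃ δ : ℝ, 0 < δ ∧ ∀ ψ : ℝ → ℝ, Bump δ ψ →
    |(∫ y, χ y * ((∏ a, ψ (X a y - s a)) * Jr X y)) -
      ∑ᶠ y ∈ tsupport χ ∩ fib X s, χ y * ((SignType.sign (Jr X y) : ℤ) : ℝ)| ≤ ε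

/-- O: summation over orbits. -/
def RowO : Prop := ∀ (n : ℕ) (k : Fin (n + 1) → ℝ) (Γ : Subgroup (SLn n))
  (χ : (Fin n → ℂ) → ℝ) (Z : Set (Fin n → ℂ)) (σ : (Fin n → ℂ) → ℤ), PD k Γ → IsWt k Γ χ →
  (∀ g ∈ Γ, ∀ y ∈ ball k, y ∈ Z → actC g y ∈ Z ∧ σ (actC g y) = σ y) →
  (tsupport χ ∩ Z).Finite → ∃ q : ℚ, ∑ᶠ y ∈ tsupport χ ∩ Z, χ y * (σ y : ℝ) = q

/-- M: rationality of the integral of a Jacobian. -/
def RowM : Prop := ∀ (n : ℕ) (k : Fin (n + 1) → ℝ) (Γ : Subgroup (SLn n))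
  (χ : (Fin n → ℂ) → ℝ) (X : Two n → (Fin n → ℂ) → ℝ) (m : Two n → SLn n → ℤ), PD k Γ →
  Cocompact k Γ → IsWt k Γ χ → (∀ a, ContDiffOn ℝ 2 (X a) (ball k)) →
  (∀ a, ∀ g ∈ Γ, ∀ y ∈ ball k, X a (actC g y) = X a y + m a g) →
  ∃ q : ℚ, ∫ y, χ y * Jr X y = q

/-- C1: real coordinates of a holomorphic map to a torus of CM type. -/
def RowC1 : Prop := ∀ (K : Type) [Field K] [NumberField K] (n : ℕ) (k : Fin (n + 1) → ℝ)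
  (Γ : Subgroup (SLn n)) (Φ : Set (K →+* ℂ)) (f : (K →+* ℂ) → (Fin n → ℂ) → ℂ)
  (ℓ : SLn n → K), PD k Γ → IsCMType Φ → IsMap k Γ Φ f ℓ →
  ∃ (J : Type) (_ : Fintype J) (b : J → K) (X : J → (Fin n → ℂ) → ℝ) (m : J → SLn n → ℤ),
    (∀ j, ContDiffOn ℝ 2 (X j) (ball k)) ∧
    (∀ j, ∀ g ∈ Γ, ∀ y ∈ ball k, X j (actC g y) = X j y + m j g) ∧
    ∀ τ : K →+* ℂ, ∀ y ∈ ball k, pull Φ f τ y = ∑ j, τ (b j) • Wi (X j) y

/-- C2: the determinant of the Wirtinger derivatives. -/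
def RowC2 : Prop := ∀ (n : ℕ) (X : Two n → (Fin n → ℂ) → ℝ) (y : Fin n → ℂ),
  Matrix.det (Matrix.of fun a => Wi (X a) y) = (I / 2) ^ n * (Jr X y : ℂ)

/-- C: the classes are rational, up to the constant. -/
def RowC : Prop := ∀ (n : ℕ) (ι : Type) [Finite ι] (K : ι → Type) [∀ i, Field (K i)]
  [∀ i, NumberField (K i)] (Φ : ∀ i, Set (K i →+* ℂ)) (k : Fin (n + 1) → ℝ)
  (Γ : Subgroup (SLn n)) (χ : (Fin n → ℂ) → ℝ) (f : ∀ i, (K i →+* ℂ) → (Fin n → ℂ) → ℂ)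
  (ℓ : ∀ i, SLn n → K i), PD k Γ → Cocompact k Γ → IsWt k Γ χ → (∀ i, IsCMType (Φ i)) →
  (∀ i, IsMap k Γ (Φ i) (f i) (ℓ i)) → (-2 * I) ^ n • cls Φ χ f ∈ HQ K n

/-- LQ: `ℚ`-structure. -/
def RowLQ : Prop := ∀ (n : ℕ) (ι : Type) [Finite ι] (K : ι → Type) [∀ i, Field (K i)]
  [∀ i, NumberField (K i)] (S : Set ((Two n → Idx K) → ℂ)) (u : (Two n → Idx K) → ℂ),
  (∀ w ∈ S, w ∈ HQ K n) → u ∈ HQ K n → u ∈ Submodule.span ℂ S → u ∈ Submodule.span ℚ S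

/-- **The Hodge conjecture for abelian varieties of CM type, rational form**: every Hodge class in
`H_{2n}(A, ℚ)`, `n ≥ 1`, is a linear combination with rational coefficients of the classes
`(-2i)^n • cls` in `H_{2n}(A, ℚ)` of holomorphic maps from compact arithmetic quotients of the
`n`-ball. -/
def HODGEQ : Prop :=
  ∀ (n : ℕ) (ι : Type) [Finite ι] (K : ι → Type) [∀ i, Field (K i)] [∀ i, NumberField (K i)]
    [∀ i, NumberField.IsCMField (K i)] (Φ : ∀ i, Set (K i →+* ℂ)), 0 < n →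
    (∀ i, IsCMType (Φ i)) → ∀ u ∈ HQ K n, IsHodge Φ u →
    u ∈ Submodule.span ℚ {w | w ∈ HQ K n ∧ ∃ v ∈ BallCl Φ, w = (-2 * I) ^ n • v}

end

end Pool.Agent.RAT
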