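import Pool.Agent.Lib.HCM.GMain
import Pool.Agent.Lib.RAT.Defs

/-!
# The generalized Hodge conjecture for abelian varieties of CM type, rational form (helper60)
-/

set_option autoImplicit false

open Complex Pool.Agent.CMN Pool.Agent.HCM

namespace Pool.Agent.RAT

/-- `γ` is a linear combination with rational coefficients of the rational classes `(-2i)^n • v`,
`v` the class of a holomorphic map from a compact arithmetic quotient of the `n`-ball to `A`. -/
def IsBallQ {ι : Type} {K : ι → Type} [∀ i, Field (K i)] {n : ℕ} (Φ : ∀ i, Set (K i →+* ℂ))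
    (γ : (Two n → Idx K) → ℂ) : Prop :=
  γ ∈ Submodule.span ℚ {w | w ∈ HQ K n ∧ ∃ v ∈ BallCl Φ, w = (-2 * I) ^ n • v}

/-- `u`, of degree `2k + l` on `A`, is the contraction of a class `γ` on `A × B` as in `IsBallQ`,
`n = k + l`, with a rational `l`-form `β` on `B`. -/
def IsContr {ι : Type} {K : ι → Type} [∀ i, Field (K i)] (Φ : ∀ i, Set (K i →+* ℂ))
    {E : Type} [Field E] [NumberField E] {ι' : Type} [Fintype ι'] (Ψ : ι' → Set (E →+* ℂ))
    (k l : ℕ) (u : (Fin (2 * k + l) → Idx K) → ℂ) : Prop :=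
  ∃ (e : Two (k + l) ≃ Fin (2 * k + l) ⊕ Fin l) (γ : (Two (k + l) → Idx (KS K E ι')) → ℂ)
    (β : (Fin l → Idx fun _ : ι' => E) → ℂ), IsBallQ (PS Φ Ψ) γ ∧ IsRat β ∧
      ∀ t, u t = ∑ s, β s * γ (glue t s ∘ e)

/-- **The generalized Hodge conjecture for abelian varieties of CM type, rational form**: let `u` be
a rational homology class of degree `2k + l` and of coniveau `k` on `A`, `k + l ≥ 1`. There are a
product `B` of tori of CM type, a class `γ` in `H_(2(k+l))(A × B, ℚ)`, which is a linear combination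
with rational coefficients of the rational classes `(-2i)^(k+l) • v`, `v` the class of a holomorphic
map from a compact arithmetic quotient of the `(k + l)`-ball to `A × B`, and a rational `l`-form `β`
on `B`, such that `u` is the contraction of `γ` with `β`. -/
def GHODGEQ : Prop :=
  ∀ (k l : ℕ) (ι : Type) [Finite ι] (K : ι → Type) [∀ i, Field (K i)] [∀ i, NumberField (K i)]
    [∀ i, NumberField.IsCMField (K i)] (Φ : ∀ i, Set (K i →+* ℂ)), 0 < k + l →
    (∀ i, IsCMType (Φ i)) → ∀ u ∈ HT K (Fin (2 * k + l)), IsConiv Φ k l u →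
    ∃ (E : Type) (_ : Field E) (_ : NumberField E) (_ : NumberField.IsCMField E) (ι' : Type)
      (_ : Fintype ι') (Ψ : ι' → Set (E →+* ℂ)), (∀ b, IsCMType (Ψ b)) ∧ IsContr Φ Ψ k l u

theorem ghodgeQ (hH : HODGEQ) : GHODGEQ := by
  intro k l ι _ K _ _ _ Φ hkl hΦ u hu hc
  obtain ⟨E, i1, i2, i3, ι', i4, Ψ, e, γ, β, hΨ, hγ, hH', hβ, h⟩ := gred k l ι K Φ hΦ u hu hc
  exact ⟨E, i1, i2, i3, ι', i4, Ψ, hΨ, e, γ, β,
    hH (k + l) (ι ⊕ ι') (KS K E ι') (PS Φ Ψ) hkl (PS_cm hΦ hΨ) γ hγ hH', hβ, h⟩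

end Pool.Agent.RAT
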