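import Pool.Agent.Lib.RAT.Defs

/-!
# RAT, row LF: local finiteness (helper2)
-/

set_option autoImplicit false

open scoped ComplexConjugate Matrix Topology
open Complex MeasureTheory Pool.Agent.CMN Pool.Agent.HCM

namespace Pool.Agent.RAT

/-- LF: local finiteness. -/
theorem row_LF : RowLF := by
  classical
  intro n k Γ κ hPD _hc hs y hy
  obtain ⟨K, hK, hyK, hKb⟩ :=
    exists_compact_subset (Pool.Agent.CMN.isOpen_ball k) hy
  have hκc : IsCompact (tsupport κ) := _hc
  have hfin := hPD.pd (K ∪ tsupport κ) (hK.union hκc) (Set.union_subset hKb hs)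
  refine ⟨hfin.toFinset, ?_⟩
  filter_upwards [mem_interior_iff_mem_nhds.1 hyK] with z hz g hg
  by_contra h0
  refine hg ?_
  rw [Set.Finite.mem_toFinset]
  exact ⟨z, Or.inl hz, Or.inr (subset_tsupport κ h0)⟩

end Pool.Agent.RAT
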